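import Pool.Agent.Lib.P7a3e68.TateBasis

/-!
# Group actions on Tate modules which commute with complex multiplication up to sign
-/

namespace Pool.Agent.Lib.P7a3e68

open TateModule

section CM

variable {l : ℕ} {M : Type*} [AddCommGroup M] [hl : Fact l.Prime]

theorem TateModule.map_comp' {N P : Type*} [AddCommGroup N] [AddCommGroup P] (f : N →+ P)
    (g : M →+ N) (x : TateModule l M) : map (f.comp g) x = map f (map g x) := rfl

theorem TateModule.map_id' (x : TateModule l M) : map (AddMonoidHom.id M) x = x := rfl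

variable {G : Type*} [Group G] (act : G → M →+ M)
  (act_mul : ∀ σ τ, act (σ * τ) = (act σ).comp (act τ)) (act_one : act 1 = AddMonoidHom.id M)
  (J : M →+ M) (hJ : ∀ x, J (J x) = -x)
  (ε : G →* ℤˣ) (hε : ∀ σ x, act σ (J x) = (ε σ : ℤ) • J (act σ x))

/-- The action on the Tate module. -/
noncomputable def tact (σ : G) : TateModule l M →ₗ[ℤ_[l]] TateModule l M := map (act σ)

include act_mul in
theorem tact_mul (σ τ : G) : tact (l := l) act (σ * τ) = tact act σ ∘ₗ tact act τ := by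
  unfold tact
  rw [act_mul]
  rfl

include act_one in
theorem tact_one : tact (l := l) act 1 = LinearMap.id := by
  unfold tact
  rw [act_one]
  rfl

include hJ in
theorem map_J_J (x : TateModule l M) : map J (map J x) = -x := by
  refine ext' fun n => ?_
  rw [map_apply, map_apply, hJ]
  rfl

include hε in
theorem tact_J (σ : G) (x : TateModule l M) :
    tact act σ (map J x) = ((ε σ : ℤ) : ℤ_[l]) • map J (tact act σ x) := by
  refine ext' fun n => ?_
  rw [intCast_smul_apply]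
  exact hε σ (x.1 n)

/-- The determinant of the action on the Tate module. -/
noncomputable def tdet (σ : G) : ℤ_[l] := LinearMap.det (tact (l := l) act σ)

include act_mul in
theorem tdet_mul (σ τ : G) : tdet (l := l) act (σ * τ) = tdet act σ * tdet act τ := by
  unfold tdet
  rw [tact_mul act act_mul, LinearMap.det_comp]

include act_one in
theorem tdet_one : tdet (l := l) act 1 = 1 := by
  unfold tdet
  rw [tact_one act act_one, LinearMap.det_id]

include act_mul act_one in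
theorem tdet_pow (σ : G) (n : ℕ) : tdet (l := l) act (σ ^ n) = tdet act σ ^ n := by
  induction n with
  | zero => rw [pow_zero, pow_zero, tdet_one act act_one]
  | succ n ih => rw [pow_succ, pow_succ, tdet_mul act act_mul, ih]

section withBasis

variable (e : TateModule l M)
  (hspan : ∀ R : M, l • R = 0 → ∃ u v : ℤ, R = u • e.1 1 + v • J (e.1 1))
  (hind : ∀ u v : ℤ, u • e.1 1 + v • J (e.1 1) = 0 → (l : ℤ) ∣ u ∧ (l : ℤ) ∣ v)

include hJ hε hspan hind in
/-- The determinant is `± (a² + b²)` where `σ e = a e + b J e`. -/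
theorem tdet_eq (σ : G) (a b : ℤ_[l]) (h : tact act σ e = a • e + b • map J e) :
    tdet act σ = ((ε σ : ℤ) : ℤ_[l]) * (a ^ 2 + b ^ 2) := by
  have h1 : tact act σ (map J e) = ((ε σ : ℤ) : ℤ_[l]) • (a • map J e - b • e) := by
    rw [tact_J act J ε hε, h, map_add, map_smul, map_smul, map_J_J J hJ, smul_neg,
      ← sub_eq_add_neg]
  unfold tdet
  rw [← LinearMap.det_toMatrix (basisOf J e hspan hind), Matrix.det_fin_two]
  simp only [LinearMap.toMatrix_apply, basisOf_zero, basisOf_one]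
  rw [h, h1]
  have r0 := (basisOf J e hspan hind).repr_self 0
  rw [basisOf_zero] at r0
  have r1 := (basisOf J e hspan hind).repr_self 1
  rw [basisOf_one] at r1
  simp only [map_add, map_smul, map_sub, r0, r1, Finsupp.add_apply, Finsupp.sub_apply,
    Finsupp.smul_apply, smul_eq_mul, Finsupp.single_apply]
  simp
  ring

include hJ hε hspan hind in
/-- The determinant modulo `l ^ m` only depends on the action on one point and on the sign. -/
theorem tdet_congr (σ σ' : G) (m : ℕ) (h1 : act σ (e.1 m) = act σ' (e.1 m)) (h2 : ε σ = ε σ') :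
    (l : ℤ_[l]) ^ m ∣ tdet act σ - tdet act σ' := by
  obtain ⟨a, b, hab⟩ := exists_coords J e hspan (tact act σ e)
  obtain ⟨a', b', hab'⟩ := exists_coords J e hspan (tact act σ' e)
  rw [tdet_eq act J hJ ε hε e hspan hind σ a b hab, tdet_eq act J hJ ε hε e hspan hind σ' a' b' hab',
    h2]
  have h3 : (tact act σ e - tact act σ' e).1 m = 0 := by
    rw [TateModule.sub_apply]
    show act σ (e.1 m) - act σ' (e.1 m) = 0
    rw [h1, sub_self]
  obtain ⟨z, hz⟩ := exists_pow_smul_eq _ m h3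
  rw [hab, hab'] at hz
  have h4 : (a - a') • e + (b - b') • map J e = (l : ℤ_[l]) ^ m • z := by
    rw [← hz, sub_smul, sub_smul]
    abel
  obtain ⟨⟨c, hc⟩, ⟨d, hd⟩⟩ := pow_dvd_of_smul_eq J e hind m _ _ z h4
  refine ⟨((ε σ' : ℤ) : ℤ_[l]) * (c * (a + a') + d * (b + b')), ?_⟩
  linear_combination (((ε σ' : ℤ) : ℤ_[l]) * (a + a')) * hc +
    (((ε σ' : ℤ) : ℤ_[l]) * (b + b')) * hd

end withBasis

end CM

/-! ### The prime three -/

section three

theorem dvd_cases (x : ℤ_[3]) : (3 : ℤ_[3]) ∣ x ∨ (3 : ℤ_[3]) ∣ x - 1 ∨ (3 : ℤ_[3]) ∣ x + 1 := by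
  obtain ⟨k, hk⟩ := TateModule.exists_int (l := 3) x 1
  have hk' : (3 : ℤ_[3]) ∣ x - k := by simpa using hk
  have hcast : ∀ m : ℤ, (3 : ℤ) ∣ m → (3 : ℤ_[3]) ∣ (m : ℤ_[3]) := by
    intro m hm
    have := map_dvd (Int.castRingHom ℤ_[3]) hm
    simpa using this
  rcases (by omega : k % 3 = 0 ∨ k % 3 = 1 ∨ k % 3 = 2) with h | h | h
  · left
    have h1 := hcast k (Int.dvd_of_emod_eq_zero h)
    have := dvd_add hk' h1
    simpa using this
  · right; left
    have h1 := hcast (k - 1) (by omega)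
    have := dvd_add hk' h1
    push_cast at this
    simpa using this
  · right; right
    have h1 := hcast (k + 1) (by omega)
    have := dvd_add hk' h1
    push_cast at this
    convert this using 1
    ring

theorem not_isUnit_of_three_dvd {x : ℤ_[3]} (h : (3 : ℤ_[3]) ∣ x) : ¬ IsUnit x := by
  intro hu
  have h3 : IsUnit (3 : ℤ_[3]) := isUnit_of_dvd_unit h hu
  have := PadicInt.isUnit_iff.1 h3
  have h4 : ‖((3 : ℕ) : ℤ_[3])‖ = (3 : ℝ)⁻¹ := by
    rw [PadicInt.norm_p]
    norm_num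
  push_cast at h4
  rw [this] at h4
  norm_num at h4

theorem three_dvd_of_not_dvd {a b : ℤ_[3]} (ha : ¬ (3 : ℤ_[3]) ∣ a) (hb : ¬ (3 : ℤ_[3]) ∣ b) :
    (3 : ℤ_[3]) ∣ a ^ 2 + b ^ 2 + 1 := by
  have key : ∀ x : ℤ_[3], ¬ (3 : ℤ_[3]) ∣ x → (3 : ℤ_[3]) ∣ x ^ 2 - 1 := by
    intro x hx
    rcases dvd_cases x with h | h | h
    · exact absurd h hx
    · have : x ^ 2 - 1 = (x - 1) * (x + 1) := by ring
      rw [this]
      exact dvd_mul_of_dvd_left h _
    · have : x ^ 2 - 1 = (x - 1) * (x + 1) := by ring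
      rw [this]
      exact dvd_mul_of_dvd_right h _
  have h1 := dvd_add (dvd_add (key a ha) (key b hb)) (dvd_refl (3 : ℤ_[3]))
  convert h1 using 1
  ring

variable {M : Type*} [AddCommGroup M]
  {G : Type*} [Group G] [TopologicalSpace G] [CompactSpace G] (act : G → M →+ M)
  (act_mul : ∀ σ τ, act (σ * τ) = (act σ).comp (act τ)) (act_one : act 1 = AddMonoidHom.id M)
  (J : M →+ M) (hJ : ∀ x, J (J x) = -x)
  (ε : G →* ℤˣ) (hε : ∀ σ x, act σ (J x) = (ε σ : ℤ) • J (act σ x))
  (hopen : ∀ (σ : G) (x : M), IsOpen {σ' | act σ' x = act σ x})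
  (hεopen : ∀ σ : G, IsOpen {σ' | ε σ' = ε σ})
  (e : TateModule 3 M)
  (hspan : ∀ R : M, 3 • R = 0 → ∃ u v : ℤ, R = u • e.1 1 + v • J (e.1 1))
  (hind : ∀ u v : ℤ, u • e.1 1 + v • J (e.1 1) = 0 → ((3 : ℕ) : ℤ) ∣ u ∧ ((3 : ℕ) : ℤ) ∣ v)

include act_mul act_one in
theorem isUnit_tdet (σ : G) : IsUnit (tdet (l := 3) act σ) := by
  refine IsUnit.of_mul_eq_one (tdet (l := 3) act σ⁻¹) ?_
  rw [← tdet_mul act act_mul, mul_inv_cancel, tdet_one act act_one]

include act_mul act_one hJ hε hopen hεopen hspan hind in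
/-- There is an element of sign `-1` and determinant one. -/
theorem exists_tdet_eq_one (c τ : G) (hc : ε c = -1) (hτ : ε τ = 1) (a b : ℤ_[3])
    (hab : tact act τ e = a • e + b • map J e) (ha : ¬ (3 : ℤ_[3]) ∣ a)
    (hb : ¬ (3 : ℤ_[3]) ∣ b) :
    ∃ σ : G, ε σ = -1 ∧ tdet (l := 3) act σ = 1 := by
  -- an element of sign `-1` and determinant congruent to one
  obtain ⟨σ₀, hσ₀, hd₀⟩ : ∃ σ₀ : G, ε σ₀ = -1 ∧ (3 : ℤ_[3]) ∣ tdet (l := 3) act σ₀ - 1 := by
    rcases dvd_cases (tdet (l := 3) act c) with h | h | h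
    · exact absurd (isUnit_tdet act act_mul act_one c) (not_isUnit_of_three_dvd h)
    · exact ⟨c, hc, h⟩
    · refine ⟨c * τ, by rw [map_mul, hc, hτ, mul_one], ?_⟩
      rw [tdet_mul act act_mul]
      have h1 : (3 : ℤ_[3]) ∣ tdet (l := 3) act τ + 1 := by
        rw [tdet_eq act J hJ ε hε e hspan hind τ a b hab, hτ]
        have := three_dvd_of_not_dvd ha hb
        simpa using this
      have h2 : tdet (l := 3) act c * tdet (l := 3) act τ - 1 =
          (tdet (l := 3) act c + 1) * tdet (l := 3) act τ - (tdet (l := 3) act τ + 1) := by ring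
      rw [h2]
      exact dvd_sub (dvd_mul_of_dvd_left h _) h1
  -- the nested closed sets
  let C : ℕ → Set G := fun m => {σ | ε σ = -1 ∧ (3 : ℤ_[3]) ^ m ∣ tdet (l := 3) act σ - 1}
  have hclosed : ∀ m, IsClosed (C m) := by
    intro m
    rw [← isOpen_compl_iff, isOpen_iff_forall_mem_open]
    intro σ hσ
    refine ⟨{σ' | act σ' (e.1 m) = act σ (e.1 m)} ∩ {σ' | ε σ' = ε σ}, ?_,
      (hopen σ (e.1 m)).inter (hεopen σ), ⟨rfl, rfl⟩⟩
    rintro σ' ⟨h1, h2⟩ ⟨h3, h4⟩
    refine hσ ⟨h2.symm.trans h3, ?_⟩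
    have h5 := tdet_congr act J hJ ε hε e hspan hind σ σ' m (Eq.symm h1) (Eq.symm h2)
    have h6 := dvd_add h5 h4
    simpa using h6
  have hne : ∀ m, (C m).Nonempty := by
    intro m
    refine ⟨σ₀ ^ (3 ^ m), ?_, ?_⟩
    · rw [map_pow, hσ₀]
      exact Odd.neg_one_pow (Odd.pow (by decide))
    · rw [tdet_pow act act_mul act_one]
      have h1 := dvd_sub_pow_of_dvd_sub (R := ℤ_[3]) (p := 3) (a := tdet (l := 3) act σ₀) (b := 1)
        (by simpa using hd₀) m
      rw [one_pow] at h1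
      refine dvd_trans ?_ h1
      push_cast
      exact pow_dvd_pow _ (Nat.le_succ m)
  have hdec : ∀ m, C (m + 1) ⊆ C m := by
    rintro m σ ⟨h1, h2⟩
    exact ⟨h1, dvd_trans (pow_dvd_pow _ (Nat.le_succ m)) h2⟩
  obtain ⟨σ, hσ⟩ := IsCompact.nonempty_iInter_of_sequence_nonempty_isCompact_isClosed C hdec hne
    (hclosed 0).isCompact hclosed
  rw [Set.mem_iInter] at hσ
  refine ⟨σ, (hσ 0).1, ?_⟩
  have h1 := TateModule.eq_zero_of_forall_pow_dvd (l := 3) (tdet (l := 3) act σ - 1)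
    (fun n => by
      have := (hσ n).2
      exact_mod_cast this)
  exact sub_eq_zero.1 h1

end three

end Pool.Agent.Lib.P7a3e68
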