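import Mathlib

/-!
# The curves `y² = x³ + A x`: complex multiplication by `i`, two- and three-torsion
-/

namespace Pool.Agent.Lib.P7a3e68

open WeierstrassCurve WeierstrassCurve.Affine

section Curve

variable {K : Type*} [Field K] [DecidableEq K] {W : WeierstrassCurve.Affine K}

/-- The hypothesis that `W` is the curve `y² = x³ + A x` with `A ≠ 0`. -/
structure IsCurve (W : WeierstrassCurve.Affine K) : Prop where
  a₁ : W.a₁ = 0
  a₂ : W.a₂ = 0
  a₃ : W.a₃ = 0
  a₆ : W.a₆ = 0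
  a₄ : W.a₄ ≠ 0

namespace IsCurve

variable (hW : IsCurve W)

include hW

omit [DecidableEq K] in
theorem equation_iff (x y : K) : W.Equation x y ↔ y ^ 2 = x ^ 3 + W.a₄ * x := by
  rw [WeierstrassCurve.Affine.equation_iff, hW.a₁, hW.a₂, hW.a₃, hW.a₆]
  constructor <;> intro h <;> linear_combination h

omit [DecidableEq K] in
theorem negY_eq (x y : K) : W.negY x y = -y := by
  rw [negY, hW.a₁, hW.a₃]
  ring

omit [DecidableEq K] in
theorem addX_eq (x₁ x₂ ℓ : K) : W.addX x₁ x₂ ℓ = ℓ ^ 2 - x₁ - x₂ := by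
  rw [addX, hW.a₁, hW.a₂]
  ring

omit [DecidableEq K] in
theorem addY_eq (x₁ x₂ y₁ ℓ : K) :
    W.addY x₁ x₂ y₁ ℓ = -(ℓ * (ℓ ^ 2 - x₁ - x₂ - x₁) + y₁) := by
  rw [addY, negAddY, hW.negY_eq, hW.addX_eq]

theorem slope_self (x y : K) (hy : y ≠ -y) : W.slope x x y y = (3 * x ^ 2 + W.a₄) / (2 * y) := by
  rw [slope_of_Y_ne rfl (by rwa [hW.negY_eq]), hW.negY_eq, hW.a₁, hW.a₂]
  congr 1 <;> ring

variable [CharZero K]

omit [DecidableEq K] in
theorem nonsingular_iff (x y : K) : W.Nonsingular x y ↔ y ^ 2 = x ^ 3 + W.a₄ * x := by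
  rw [WeierstrassCurve.Affine.nonsingular_iff, hW.equation_iff, hW.a₁, hW.a₂, hW.a₃]
  constructor
  · exact fun h => h.1
  · intro h
    refine ⟨h, ?_⟩
    by_contra hc
    push Not at hc
    obtain ⟨h1, h2⟩ := hc
    have hy : y = 0 := by
      have : (2 : K) * y = 0 := by linear_combination h2
      exact (mul_eq_zero.1 this).resolve_left two_ne_zero
    subst hy
    have h3 : x * (x ^ 2 + W.a₄) = 0 := by linear_combination -h
    rcases mul_eq_zero.1 h3 with h4 | h4
    · subst h4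
      exact hW.a₄ (by linear_combination -h1)
    · have h5 : (2 : K) * W.a₄ = 0 := by linear_combination 3 * h4 + h1
      exact hW.a₄ ((mul_eq_zero.1 h5).resolve_left two_ne_zero)

end IsCurve

section J

variable [CharZero K] (hW : IsCurve W) (i : K) (hi : i ^ 2 = -1)

/-- The automorphism `(x, y) ↦ (-x, i y)`, as a function. -/
def Jfun : W.Point → W.Point
  | .zero => .zero
  | .some x y h => .some (-x) (i * y) (by
      rw [hW.nonsingular_iff] at h ⊢
      linear_combination (-1 : K) * h + y ^ 2 * hi)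

omit [DecidableEq K] in
theorem i_ne_zero (hi : i ^ 2 = -1) : i ≠ 0 := by
  rintro rfl
  norm_num at hi

theorem Jfun_add (P Q : W.Point) :
    Jfun hW i hi (P + Q) = Jfun hW i hi P + Jfun hW i hi Q := by
  have hi0 : i ≠ 0 := i_ne_zero i hi
  rcases P with _ | ⟨x₁, y₁, h₁⟩
  · show Jfun hW i hi (0 + Q) = 0 + Jfun hW i hi Q
    rw [zero_add, zero_add]
  rcases Q with _ | ⟨x₂, y₂, h₂⟩
  · show Jfun hW i hi (_ + 0) = Jfun hW i hi _ + 0
    rw [add_zero, add_zero]
  by_cases hxy : x₁ = x₂ ∧ y₁ = W.negY x₂ y₂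
  · rw [Point.add_of_Y_eq hxy.1 hxy.2]
    show (0 : W.Point) = Point.some _ _ _ + Point.some _ _ _
    rw [Point.add_of_Y_eq]
    · rw [hxy.1]
    · have := hxy.2
      rw [hW.negY_eq] at this ⊢
      rw [this]
      ring
  · have hxy' : ¬(-x₁ = -x₂ ∧ i * y₁ = W.negY (-x₂) (i * y₂)) := by
      rintro ⟨h1, h2⟩
      refine hxy ⟨neg_injective h1, ?_⟩
      rw [hW.negY_eq] at h2 ⊢
      exact mul_left_cancel₀ hi0 (by linear_combination h2)
    rw [Point.add_some hxy]
    show Point.some _ _ _ = Point.some _ _ _ + Point.some _ _ _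
    rw [Point.add_some hxy']
    -- the slopes are related by multiplication with `-i`
    have hs : W.slope (-x₁) (-x₂) (i * y₁) (i * y₂) = -i * W.slope x₁ x₂ y₁ y₂ := by
      by_cases hx : x₁ = x₂
      · subst hx
        have hy : y₁ ≠ W.negY x₁ y₂ := fun h => hxy ⟨rfl, h⟩
        have hy' : i * y₁ ≠ W.negY (-x₁) (i * y₂) := fun h => hxy' ⟨rfl, h⟩
        rw [slope_of_Y_ne rfl hy, slope_of_Y_ne rfl hy', hW.negY_eq, hW.negY_eq, hW.a₁, hW.a₂]
        -- here `y₁ = y₂` or `y₁ = - y₂`, so `y₁ ≠ 0`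
        have hy1 : y₁ ≠ 0 := by
          rintro rfl
          have e1 := (hW.nonsingular_iff _ _).1 h₁
          have e2 := (hW.nonsingular_iff _ _).1 h₂
          have : y₂ ^ 2 = 0 := by rw [e2, ← e1]; ring
          have : y₂ = 0 := by simpa using this
          subst this
          exact hy (by rw [hW.negY_eq]; ring)
        have h2y : y₁ - -y₁ ≠ 0 := by
          rw [sub_neg_eq_add, ← two_mul]
          exact mul_ne_zero two_ne_zero hy1
        have h2y' : i * y₁ - -(i * y₁) ≠ 0 := by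
          rw [sub_neg_eq_add, ← two_mul]
          exact mul_ne_zero two_ne_zero (mul_ne_zero hi0 hy1)
        rw [div_eq_iff h2y', ← mul_div_assoc, div_mul_eq_mul_div, eq_div_iff h2y]
        linear_combination ((2 * y₁) * (3 * x₁ ^ 2 + W.a₄)) * hi
      · have hx' : -x₁ ≠ -x₂ := fun h => hx (neg_injective h)
        rw [slope_of_X_ne hx, slope_of_X_ne hx']
        have e1 : x₁ - x₂ ≠ 0 := sub_ne_zero.2 hx
        have e2 : -x₁ - -x₂ ≠ 0 := sub_ne_zero.2 hx'
        rw [div_eq_iff e2, ← mul_div_assoc, div_mul_eq_mul_div, eq_div_iff e1]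
        ring
    have hX : W.addX (-x₁) (-x₂) (W.slope (-x₁) (-x₂) (i * y₁) (i * y₂)) =
        -W.addX x₁ x₂ (W.slope x₁ x₂ y₁ y₂) := by
      rw [hs, hW.addX_eq, hW.addX_eq]
      linear_combination (W.slope x₁ x₂ y₁ y₂) ^ 2 * hi
    have hY : W.addY (-x₁) (-x₂) (i * y₁) (W.slope (-x₁) (-x₂) (i * y₁) (i * y₂)) =
        i * W.addY x₁ x₂ y₁ (W.slope x₁ x₂ y₁ y₂) := by
      rw [hs, hW.addY_eq, hW.addY_eq]
      linear_combination (i * (W.slope x₁ x₂ y₁ y₂) ^ 3) * hi
    simp only [Point.some.injEq]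
    exact ⟨hX.symm, hY.symm⟩

/-- Complex multiplication by `i`: the endomorphism `(x, y) ↦ (-x, i y)`. -/
def J : W.Point →+ W.Point where
  toFun := Jfun hW i hi
  map_zero' := rfl
  map_add' := Jfun_add hW i hi

theorem J_some {x y : K} (h : W.Nonsingular x y) :
    J hW i hi (.some x y h) = .some (-x) (i * y) (by
      rw [hW.nonsingular_iff] at h ⊢
      linear_combination (-1 : K) * h + y ^ 2 * hi) := rfl

theorem J_J (P : W.Point) : J hW i hi (J hW i hi P) = -P := by
  rcases P with _ | ⟨x, y, h⟩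
  · rfl
  · rw [J_some, J_some, Point.neg_some]
    simp only [Point.some.injEq]
    refine ⟨neg_neg x, ?_⟩
    rw [hW.negY_eq]
    linear_combination y * hi

end J

end Curve

end Pool.Agent.Lib.P7a3e68
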