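import Pool.Agent.Lib.P7a3e68.Tate

/-!
# The groups `Γ¹` attached to an elliptic curve, and their Zariski closures
-/

namespace Pool.Agent.Lib.P7a3e68

open scoped TensorProduct WeierstrassCurve.Affine

/-! ### Rational Tate modules of abelian groups -/

section group

variable (l : ℕ) [Fact l.Prime] (M : Type*) [AddCommGroup M]

/-- The rational Tate module `V_l M = ℚ_l ⊗ T_l M` of an abelian group `M`. -/
def RationalTateModule : Type _ := ℚ_[l] ⊗[ℤ_[l]] TateModule l M

noncomputable instance RationalTateModule.instAddCommGroup :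
    AddCommGroup (RationalTateModule l M) :=
  inferInstanceAs (AddCommGroup (ℚ_[l] ⊗[ℤ_[l]] TateModule l M))

noncomputable instance RationalTateModule.instModule : Module ℚ_[l] (RationalTateModule l M) :=
  inferInstanceAs (Module ℚ_[l] (ℚ_[l] ⊗[ℤ_[l]] TateModule l M))

variable {M}

/-- A homomorphism of abelian groups induces a linear map of rational Tate modules. -/
noncomputable def RationalTateModule.map {N : Type*} [AddCommGroup N] (f : M →+ N) :
    RationalTateModule l M →ₗ[ℚ_[l]] RationalTateModule l N :=
  (TateModule.map (l := l) f).baseChange ℚ_[l]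

end group

/-! ### Elliptic curves -/

/-- The Weierstrass curve `y² = x³ + a x` over the rationals. -/
def curve (a : ℚ) : WeierstrassCurve ℚ := ⟨0, 0, 0, a, 0⟩

section curves

variable {F : Type*} [Field F] (Fbar : Type*) [Field Fbar] [DecidableEq Fbar] [Algebra F Fbar]
  (W : WeierstrassCurve F) (l : ℕ) [Fact l.Prime]

/-- The group `W(Fbar)` of points of the Weierstrass curve `W` over `Fbar`. -/
def GeomPoints : Type _ := (W.toAffine⁄Fbar).Point

instance GeomPoints.instAddCommGroup : AddCommGroup (GeomPoints Fbar W) :=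
  inferInstanceAs (AddCommGroup (W.toAffine⁄Fbar).Point)

variable {Fbar}

/-- The action of an automorphism `σ` of `Fbar` over `F` on the group `W(Fbar)`. -/
noncomputable def galPoints (σ : Fbar ≃ₐ[F] Fbar) : GeomPoints Fbar W →+ GeomPoints Fbar W :=
  WeierstrassCurve.Affine.Point.map (W' := W.toAffine) (σ : Fbar →ₐ[F] Fbar)

variable (Fbar)

/-- The rational Tate module `V_l W` of the Weierstrass curve `W`. -/
abbrev VTate : Type _ := RationalTateModule l (GeomPoints Fbar W)

/-- The `l`-adic Galois representation: the action of an automorphism `σ` of `Fbar` over `F` on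
the rational Tate module `V_l W`. -/
noncomputable def galRep (σ : Fbar ≃ₐ[F] Fbar) : Module.End ℚ_[l] (VTate Fbar W l) :=
  RationalTateModule.map l (galPoints W σ)

/-- The group `Γ¹_l`: the elements of the image `Γ_l` of the Galois group of `Fbar` over `F`
which preserve the bilinear form `ψ` on the rational Tate module `V_l W`. -/
def galImageOne (ψ : LinearMap.BilinForm ℚ_[l] (VTate Fbar W l)) :
    Set (Module.End ℚ_[l] (VTate Fbar W l)) :=
  {g | (∃ σ : Fbar ≃ₐ[F] Fbar, galRep Fbar W l σ = g) ∧ ∀ x y, ψ (g x) (g y) = ψ x y}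

end curves

/-! ### Zariski closures -/

/-- The ideal of the Zariski closure of a set `S` of endomorphisms of a vector space with basis
`c`: all polynomials in the matrix entries which vanish on the matrices of the elements of
`S`. -/
noncomputable def closureIdeal {k V ι : Type*} [Field k] [AddCommGroup V] [Module k V] [Fintype ι]
    [DecidableEq ι] (c : Module.Basis ι k V) (S : Set (Module.End k V)) :
    Ideal (MvPolynomial (ι × ι) k) :=
  MvPolynomial.vanishingIdeal k
    {x : ι × ι → k | ∃ g ∈ S, ∀ ij : ι × ι, x ij = LinearMap.toMatrix c c g ij.1 ij.2}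

/-- The ideal `J` of the polynomial ring over `ℚ_l` in the matrix entries is the extension of the
ideal `I` of the polynomial ring over `ℚ` in the matrix entries. -/
def ExtendsTo (l : ℕ) [Fact l.Prime] {ι : Type*} (I : Ideal (MvPolynomial (ι × ι) ℚ))
    (J : Ideal (MvPolynomial (ι × ι) ℚ_[l])) : Prop :=
  I.map (MvPolynomial.map (algebraMap ℚ ℚ_[l])) = J

/-- The basis of a `ℚ_l`-vector space `V` which corresponds to the basis `b` of the `ℚ`-vector
space `H` under an identification `comp` of `ℚ_l ⊗ H` with `V`. -/
noncomputable def transportedBasis {l : ℕ} [Fact l.Prime] {H V ι : Type*} [AddCommGroup H]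
    [Module ℚ H] [AddCommGroup V] [Module ℚ_[l] V] (b : Module.Basis ι ℚ H)
    (comp : (ℚ_[l] ⊗[ℚ] H) ≃ₗ[ℚ_[l]] V) : Module.Basis ι ℚ_[l] V :=
  (Algebra.TensorProduct.basis ℚ_[l] b).map comp

section model

variable {F : Type*} [Field F] (Fbar : Type*) [Field Fbar] [DecidableEq Fbar] [Algebra F Fbar]
  (W : WeierstrassCurve F) (l : ℕ) [Fact l.Prime]

/-- `HasClosure Fbar W l b I`: let `H` be a two-dimensional vector space over the rationals with
basis `b`, and let `I` be an ideal of polynomials over the rationals in the four matrix entries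
of endomorphisms of `H`, that is, a closed subscheme of `End H`. For some identification `comp`
of `ℚ_l ⊗ H` with `V_l W` and some nonzero alternating form `ψ` on `V_l W`, the base change of
this closed subscheme to `ℚ_l` is the Zariski closure of the group `Γ¹_l`. -/
def HasClosure {H : Type*} [AddCommGroup H] [Module ℚ H] (b : Module.Basis (Fin 2) ℚ H)
    (I : Ideal (MvPolynomial (Fin 2 × Fin 2) ℚ)) : Prop :=
  ∃ (comp : (ℚ_[l] ⊗[ℚ] H) ≃ₗ[ℚ_[l]] VTate Fbar W l)
    (ψ : LinearMap.BilinForm ℚ_[l] (VTate Fbar W l)),
    ψ.IsAlt ∧ ψ ≠ 0 ∧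
      ExtendsTo l I (closureIdeal (transportedBasis b comp) (galImageOne Fbar W l ψ))

end model

end Pool.Agent.Lib.P7a3e68
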