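import Mathlib

/-!
# Descent of polynomials in an extended ideal
-/

namespace Pool.Agent.Lib.P7a3e68

open MvPolynomial

section descent

variable {σ k L : Type*} [Field k] [Field L] [Algebra k L] (φ : L →ₗ[k] k)

/-- Apply a linear form to all coefficients of a polynomial. -/
noncomputable def applyCoeff (p : MvPolynomial σ L) : MvPolynomial σ k :=
  ∑ m ∈ p.support, monomial m (φ (coeff m p))

theorem coeff_applyCoeff (p : MvPolynomial σ L) (m : σ →₀ ℕ) :
    coeff m (applyCoeff φ p) = φ (coeff m p) := by
  classical
  unfold applyCoeff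
  rw [coeff_sum]
  simp only [coeff_monomial]
  rw [Finset.sum_ite_eq' p.support m]
  split_ifs with h
  · rfl
  · rw [notMem_support_iff] at h
    rw [h, map_zero]

theorem applyCoeff_add (p q : MvPolynomial σ L) :
    applyCoeff φ (p + q) = applyCoeff φ p + applyCoeff φ q := by
  ext m
  rw [coeff_applyCoeff, coeff_add, coeff_add, map_add, coeff_applyCoeff, coeff_applyCoeff]

theorem applyCoeff_zero : applyCoeff φ (0 : MvPolynomial σ L) = 0 := by
  ext m
  rw [coeff_applyCoeff, coeff_zero, coeff_zero, map_zero]

theorem applyCoeff_mul_map (p : MvPolynomial σ L) (q : MvPolynomial σ k) :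
    applyCoeff φ (p * MvPolynomial.map (algebraMap k L) q) = applyCoeff φ p * q := by
  classical
  ext m
  rw [coeff_applyCoeff, coeff_mul, coeff_mul, map_sum]
  refine Finset.sum_congr rfl fun x _ => ?_
  rw [coeff_map, coeff_applyCoeff, mul_comm, ← Algebra.smul_def, map_smul, smul_eq_mul, mul_comm]

theorem applyCoeff_mem (I : Ideal (MvPolynomial σ k)) (p : MvPolynomial σ L)
    (hp : p ∈ I.map (MvPolynomial.map (algebraMap k L))) : applyCoeff φ p ∈ I := by
  have key : ∀ p ∈ I.map (MvPolynomial.map (σ := σ) (algebraMap k L)),
      ∀ r : MvPolynomial σ L, applyCoeff φ (r * p) ∈ I := by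
    intro p hp
    unfold Ideal.map at hp
    induction hp using Submodule.span_induction with
    | mem x hx =>
      intro r
      obtain ⟨q, hq, rfl⟩ := hx
      have := applyCoeff_mul_map φ r q
      erw [this]
      exact I.mul_mem_left _ hq
    | zero =>
      intro r
      rw [mul_zero, applyCoeff_zero]
      exact I.zero_mem
    | add x y _ _ hx hy =>
      intro r
      rw [mul_add, applyCoeff_add]
      exact I.add_mem (hx r) (hy r)
    | smul a x _ hx =>
      intro r
      rw [smul_eq_mul, ← mul_assoc]
      exact hx (r * a)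
  have := key p hp 1
  rwa [one_mul] at this

end descent

end Pool.Agent.Lib.P7a3e68
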