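import Pool.Agent.Lib.P7a3e68.Curve

/-!
# Divisibility by two and three on `y² = x³ + A x` over an algebraically closed field
-/

namespace Pool.Agent.Lib.P7a3e68

open WeierstrassCurve WeierstrassCurve.Affine Polynomial

section Divisible

variable {K : Type*} [Field K] [DecidableEq K] {W : WeierstrassCurve.Affine K} [CharZero K]
  (hW : IsCurve W)

omit [DecidableEq K] in
theorem ne_neg_self {y : K} (hy : y ≠ 0) : y ≠ -y := by
  intro h
  apply hy
  have : (2 : K) * y = 0 := by linear_combination h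
  exact (mul_eq_zero.1 this).resolve_left two_ne_zero

include hW

/-- The duplication formula. -/
theorem two_smul_some {x y : K} (h : W.Nonsingular x y) (hy : y ≠ 0) {ℓ : K}
    (hℓ : ℓ = (3 * x ^ 2 + W.a₄) / (2 * y)) :
    ∃ h', (2 : ℕ) • (Point.some x y h : W.Point) =
      Point.some (ℓ ^ 2 - 2 * x) (-(ℓ * (ℓ ^ 2 - 3 * x) + y)) h' := by
  have hy' : y ≠ W.negY x y := by
    rw [hW.negY_eq]
    exact ne_neg_self hy
  have e1 : W.slope x x y y = ℓ := by
    rw [hW.slope_self x y (ne_neg_self hy), hℓ]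
  have e2 : W.addX x x (W.slope x x y y) = ℓ ^ 2 - 2 * x := by
    rw [e1, hW.addX_eq]
    ring
  have e3 : W.addY x x y (W.slope x x y y) = -(ℓ * (ℓ ^ 2 - 3 * x) + y) := by
    rw [e1, hW.addY_eq]
    ring
  have e4 := nonsingular_add h h (fun hxy => hy' hxy.2)
  rw [e2, e3] at e4
  refine ⟨e4, ?_⟩
  rw [two_nsmul, Point.add_self_of_Y_ne hy']
  simp only [Point.some.injEq]
  exact ⟨e2, e3⟩

omit [DecidableEq K] [CharZero K] hW in
/-- Points with the same first coordinate are equal or opposite. -/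
theorem eq_or_eq_neg {x y y' : K} (h : W.Nonsingular x y) (h' : W.Nonsingular x y') :
    (Point.some x y h : W.Point) = Point.some x y' h' ∨
      (Point.some x y h : W.Point) = -Point.some x y' h' :=
  Point.X_eq_iff.1 rfl

/-- The triplication formula for the first coordinate. -/
theorem three_smul_some {x y : K} (h : W.Nonsingular x y) (hy : y ≠ 0)
    (hψ : 3 * x ^ 4 + 6 * W.a₄ * x ^ 2 - W.a₄ ^ 2 ≠ 0) :
    ∃ x' y' h', (3 : ℕ) • (Point.some x y h : W.Point) = Point.some x' y' h' ∧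
      x' * (3 * x ^ 4 + 6 * W.a₄ * x ^ 2 - W.a₄ ^ 2) ^ 2 =
        x * (x ^ 4 - 6 * W.a₄ * x ^ 2 - 3 * W.a₄ ^ 2) ^ 2 := by
  set A := W.a₄ with hA
  set ψ := 3 * x ^ 4 + 6 * A * x ^ 2 - A ^ 2 with hψdef
  have he : y ^ 2 = x ^ 3 + A * x := (hW.nonsingular_iff x y).1 h
  obtain ⟨h2, h2e⟩ := two_smul_some hW h hy rfl
  set ℓ := (3 * x ^ 2 + A) / (2 * y) with hℓ
  have hℓy : ℓ * (2 * y) = 3 * x ^ 2 + A := by
    rw [hℓ, div_mul_cancel₀]
    exact mul_ne_zero two_ne_zero hy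
  -- `4 y² (ℓ² - 3 x) = - ψ`
  have hkey : 4 * y ^ 2 * (ℓ ^ 2 - 3 * x) = -ψ := by
    have : 4 * y ^ 2 * (ℓ ^ 2 - 3 * x) = (ℓ * (2 * y)) ^ 2 - 12 * x * y ^ 2 := by ring
    rw [this, hℓy, he, hψdef]
    ring
  have hd : ℓ ^ 2 - 3 * x ≠ 0 := by
    intro h0
    rw [h0, mul_zero] at hkey
    exact hψ (by linear_combination hkey)
  have hne : ℓ ^ 2 - 2 * x ≠ x := by
    intro h0
    exact hd (by linear_combination h0)
  have e3 : (3 : ℕ) • (Point.some x y h : W.Point) =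
      (2 : ℕ) • (Point.some x y h : W.Point) + Point.some x y h := by
    rw [← succ_nsmul]
  rw [h2e, Point.add_of_X_ne hne] at e3
  refine ⟨_, _, _, e3, ?_⟩
  rw [hW.addX_eq, slope_of_X_ne hne]
  set d := ℓ ^ 2 - 3 * x with hddef
  have hd' : ℓ ^ 2 - 2 * x - x = d := by rw [hddef]; ring
  have hsl : (-(ℓ * (ℓ ^ 2 - 3 * x) + y) - y) / (ℓ ^ 2 - 2 * x - x) = -ℓ - 2 * y / d := by
    rw [hd', ← hddef]
    field_simp
    ring
  rw [hsl]
  -- multiply by `d²`
  have hψd : ψ = -(4 * y ^ 2 * d) := by rw [hkey, neg_neg]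
  have h5 : ((-ℓ - 2 * y / d) ^ 2 - (ℓ ^ 2 - 2 * x) - x) * d ^ 2 =
      4 * ℓ * y * d + 4 * y ^ 2 + x * d ^ 2 := by
    field_simp
    ring
  have h6 : ((-ℓ - 2 * y / d) ^ 2 - (ℓ ^ 2 - 2 * x) - x) * ψ ^ 2 =
      16 * y ^ 4 * (4 * ℓ * y * d + 4 * y ^ 2 + x * d ^ 2) := by
    rw [← h5, hψd]
    ring
  have h7 : 16 * y ^ 4 * (4 * ℓ * y * d + 4 * y ^ 2 + x * d ^ 2) =
      8 * y ^ 2 * (ℓ * (2 * y)) * (4 * y ^ 2 * d) + 64 * (y ^ 2) ^ 3 + x * (4 * y ^ 2 * d) ^ 2 := by
    ring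
  rw [h6, h7, hℓy, hkey, he, hψdef]
  ring

variable [IsAlgClosed K]

theorem two_divisible (R : W.Point) : ∃ S : W.Point, (2 : ℕ) • S = R := by
  rcases R with _ | ⟨X, Y, hR⟩
  · exact ⟨0, smul_zero _⟩
  have hRe := (hW.nonsingular_iff X Y).1 hR
  set A := W.a₄ with hA
  -- the quartic for the first coordinate
  obtain ⟨x, hx⟩ := IsAlgClosed.exists_root
    (Polynomial.X ^ 4 - C (4 * X) * Polynomial.X ^ 3 - C (2 * A) * Polynomial.X ^ 2
      - C (4 * A * X) * Polynomial.X + C (A ^ 2))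
    (by
      have : (Polynomial.X ^ 4 - C (4 * X) * Polynomial.X ^ 3 - C (2 * A) * Polynomial.X ^ 2
        - C (4 * A * X) * Polynomial.X + C (A ^ 2)).degree = 4 := by
        compute_degree!
      rw [this]
      norm_num)
  have hx' : x ^ 4 - 4 * X * x ^ 3 - 2 * A * x ^ 2 - 4 * A * X * x + A ^ 2 = 0 := by
    simpa using hx
  obtain ⟨y, hy⟩ := IsAlgClosed.exists_pow_nat_eq (x ^ 3 + A * x) (n := 2) (by norm_num)
  have hns : W.Nonsingular x y := (hW.nonsingular_iff x y).2 hy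
  have hy0 : y ≠ 0 := by
    rintro rfl
    have h1 : x * (x ^ 2 + A) = 0 := by linear_combination -hy
    rcases mul_eq_zero.1 h1 with h2 | h2
    · subst h2
      exact hW.a₄ (by
        have : A ^ 2 = 0 := by linear_combination hx'
        simpa using this)
    · exact hW.a₄ (by
        have : 4 * A ^ 2 = 0 := by
          linear_combination hx' + (-x ^ 2 + 4 * X * x + 3 * A) * h2
        have : A ^ 2 = 0 := (mul_eq_zero.1 this).resolve_left (by norm_num)
        simpa using this)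
  obtain ⟨h2, h2e⟩ := two_smul_some hW hns hy0 (ℓ := (3 * x ^ 2 + A) / (2 * y)) rfl
  have hX : ((3 * x ^ 2 + A) / (2 * y)) ^ 2 - 2 * x = X := by
    field_simp
    linear_combination (-8 * x - 4 * X) * hy + hx'
  have h3 : ∃ Y' h', (2 : ℕ) • (Point.some x y hns : W.Point) = Point.some X Y' h' := by
    rw [hX] at h2
    refine ⟨_, h2, ?_⟩
    rw [h2e]
    simp only [Point.some.injEq]
    exact ⟨hX, trivial⟩
  obtain ⟨Y', h', h4⟩ := h3
  rcases eq_or_eq_neg hR h' with h5 | h5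
  · exact ⟨_, h4.trans h5.symm⟩
  · exact ⟨-Point.some x y hns, by rw [smul_neg, h4, h5]⟩

theorem three_divisible (R : W.Point) : ∃ S : W.Point, (3 : ℕ) • S = R := by
  rcases R with _ | ⟨X, Y, hR⟩
  · exact ⟨0, smul_zero _⟩
  have hRe := (hW.nonsingular_iff X Y).1 hR
  set A := W.a₄ with hA
  obtain ⟨x, hx⟩ := IsAlgClosed.exists_root
    (Polynomial.X ^ 9 - C (9 * X) * Polynomial.X ^ 8 - C (12 * A) * Polynomial.X ^ 7
      - C (36 * A * X) * Polynomial.X ^ 6 + C (30 * A ^ 2) * Polynomial.X ^ 5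
      - C (30 * A ^ 2 * X) * Polynomial.X ^ 4 + C (36 * A ^ 3) * Polynomial.X ^ 3
      + C (12 * A ^ 3 * X) * Polynomial.X ^ 2 + C (9 * A ^ 4) * Polynomial.X
      - C (A ^ 4 * X))
    (by
      have : (Polynomial.X ^ 9 - C (9 * X) * Polynomial.X ^ 8 - C (12 * A) * Polynomial.X ^ 7
      - C (36 * A * X) * Polynomial.X ^ 6 + C (30 * A ^ 2) * Polynomial.X ^ 5
      - C (30 * A ^ 2 * X) * Polynomial.X ^ 4 + C (36 * A ^ 3) * Polynomial.X ^ 3
      + C (12 * A ^ 3 * X) * Polynomial.X ^ 2 + C (9 * A ^ 4) * Polynomial.X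
      - C (A ^ 4 * X)).degree = 9 := by
        compute_degree!
      rw [this]
      norm_num)
  have hx' : x * (x ^ 4 - 6 * A * x ^ 2 - 3 * A ^ 2) ^ 2 =
      X * (3 * x ^ 4 + 6 * A * x ^ 2 - A ^ 2) ^ 2 := by
    have h0 : x ^ 9 - 9 * X * x ^ 8 - 12 * A * x ^ 7 - 36 * A * X * x ^ 6 + 30 * A ^ 2 * x ^ 5
      - 30 * A ^ 2 * X * x ^ 4 + 36 * A ^ 3 * x ^ 3 + 12 * A ^ 3 * X * x ^ 2 + 9 * A ^ 4 * x
      - A ^ 4 * X = 0 := by simpa using hx
    linear_combination h0
  have hA0 : A ≠ 0 := hW.a₄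
  have hψ : 3 * x ^ 4 + 6 * A * x ^ 2 - A ^ 2 ≠ 0 := by
    intro h0
    rw [h0] at hx'
    have h1 : x * (x ^ 4 - 6 * A * x ^ 2 - 3 * A ^ 2) ^ 2 = 0 := by rw [hx']; ring
    rcases mul_eq_zero.1 h1 with h2 | h2
    · subst h2
      have : A ^ 2 = 0 := by linear_combination -h0
      exact hA0 (by simpa using this)
    · have h3 : x ^ 4 - 6 * A * x ^ 2 - 3 * A ^ 2 = 0 := by simpa using h2
      have h4 : (8 * A) * (3 * x ^ 2 + A) = 0 := by linear_combination h0 - 3 * h3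
      have h5 : 3 * x ^ 2 + A = 0 :=
        (mul_eq_zero.1 h4).resolve_left (mul_ne_zero (by norm_num) hA0)
      have h6 : 8 * A ^ 2 = 0 := by
        linear_combination (-9 : K) * h3 + (3 * x ^ 2 - 19 * A) * h5
      have h7 : A ^ 2 = 0 := (mul_eq_zero.1 h6).resolve_left (by norm_num)
      exact hA0 (by simpa using h7)
  obtain ⟨y, hy⟩ := IsAlgClosed.exists_pow_nat_eq (x ^ 3 + A * x) (n := 2) (by norm_num)
  have hns : W.Nonsingular x y := (hW.nonsingular_iff x y).2 hy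
  have h3 : ∃ Y' h', (3 : ℕ) • (Point.some x y hns : W.Point) = Point.some X Y' h' := by
    by_cases hy0 : y = 0
    · -- a two-torsion point
      have h1 : x * (x ^ 2 + A) = 0 := by
        rw [hy0] at hy
        linear_combination -hy
      have hxX : x = X := by
        rcases mul_eq_zero.1 h1 with h2 | h2
        · subst h2
          have : X * A ^ 4 = 0 := by linear_combination -hx'
          exact ((mul_eq_zero.1 this).resolve_right (pow_ne_zero 4 hA0)).symm
        · have h3 : x ^ 2 = -A := by linear_combination h2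
          have h4 : x ^ 4 = A ^ 2 := by
            have : x ^ 4 = (x ^ 2) ^ 2 := by ring
            rw [this, h3]; ring
          rw [h4, h3] at hx'
          have h5 : (x - X) * (16 * A ^ 4) = 0 := by linear_combination hx'
          exact sub_eq_zero.1 ((mul_eq_zero.1 h5).resolve_right
            (mul_ne_zero (by norm_num) (pow_ne_zero 4 hA0)))
      subst hxX
      refine ⟨y, hns, ?_⟩
      have h2 : (2 : ℕ) • (Point.some x y hns : W.Point) = 0 := by
        rw [two_nsmul, Point.add_self_of_Y_eq]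
        rw [hW.negY_eq, hy0, neg_zero]
      rw [show (3 : ℕ) = 2 + 1 from rfl, succ_nsmul, h2, zero_add]
    · obtain ⟨x', y', h', h4, h5⟩ := three_smul_some hW hns hy0 hψ
      have h6 : x' = X := by
        rw [← hA] at h5
        rw [hx'] at h5
        exact mul_right_cancel₀ (pow_ne_zero 2 hψ) h5
      subst h6
      exact ⟨y', h', h4⟩
  obtain ⟨Y', h', h4⟩ := h3
  rcases eq_or_eq_neg hR h' with h5 | h5
  · exact ⟨_, h4.trans h5.symm⟩
  · exact ⟨-Point.some x y hns, by rw [smul_neg, h4, h5]⟩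

end Divisible

end Pool.Agent.Lib.P7a3e68
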