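import Pool.Agent.Lib.P7a3e68.Main

/-!
# The groups `Γ¹` at the primes two and three, and the main theorem
-/

namespace Pool.Agent.Lib.P7a3e68

open scoped TensorProduct WeierstrassCurve.Affine
open WeierstrassCurve.Affine

section final

variable (a : ℚ) (ha : a ≠ 0) (Qb : Type*) [Field Qb] [DecidableEq Qb] [Algebra ℚ Qb]
  [IsAlgClosure ℚ Qb]

include ha in
theorem finrank_two : Module.finrank ℚ_[2] (RTM 2 (Pts Qb (curve a))) = 2 := by
  have : CharZero Qb := charZero_of_injective_algebraMap (algebraMap ℚ Qb).injective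
  have : IsAlgClosed Qb := IsAlgClosure.isAlgClosed ℚ
  obtain ⟨i, hi⟩ := IsAlgClosed.exists_pow_nat_eq (-1 : Qb) (n := 2) (by norm_num)
  obtain ⟨e, h1, h2⟩ := exists_basis_two a ha Qb i hi
  have := Module.Free.of_basis (TateModule.basisOf _ e h1 h2)
  rw [Module.finrank_baseChange, Module.finrank_eq_card_basis (TateModule.basisOf _ e h1 h2)]
  rfl

include ha in
theorem finrank_three :
    Module.finrank ℚ_[3] (RTM 3 (Pts Qb (curve a))) = 2 := by
  have : CharZero Qb := charZero_of_injective_algebraMap (algebraMap ℚ Qb).injective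
  have : IsAlgClosed Qb := IsAlgClosure.isAlgClosed ℚ
  obtain ⟨i, hi⟩ := IsAlgClosed.exists_pow_nat_eq (-1 : Qb) (n := 2) (by norm_num)
  obtain ⟨e, h1, h2, -⟩ := exists_basis_three a ha Qb i hi
  have := Module.Free.of_basis (TateModule.basisOf _ e h1 h2)
  rw [Module.finrank_baseChange, Module.finrank_eq_card_basis (TateModule.basisOf _ e h1 h2)]
  rfl

/-- At the prime two, there is an endomorphism `T` of square `-1` which commutes with all
elements of `Γ¹`. -/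
theorem commute_two [CharZero Qb] (i : Qb) (hi : i ^ 2 = -1)
    (c : Module.Basis (Fin 2) ℚ_[2] (RTM 2 (Pts Qb (curve a))))
    (ψ : RTM 2 (Pts Qb (curve a)) →ₗ[ℚ_[2]]
      RTM 2 (Pts Qb (curve a)) →ₗ[ℚ_[2]] ℚ_[2])
    (hψ : ψ.IsAlt) (hψ0 : ψ ≠ 0) (g) (hg : g ∈ gimageOne Qb (curve a) 2 ψ) :
    g * VJ a ha Qb i hi 2 = VJ a ha Qb i hi 2 * g := by
  obtain ⟨⟨σ, rfl⟩, h1⟩ := hg
  have h2 := galRep_VJ a ha Qb i hi 2 σ
  rcases apply_i_cases i hi σ with h3 | h3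
  · rw [(sign_eq_one_iff i hi σ).2 h3, Units.val_one, one_smul] at h2
    exact h2
  · exfalso
    rw [(sign_eq_neg_one_iff i hi σ).2 h3, Units.val_neg, Units.val_one, neg_smul, one_smul] at h2
    have hdet := (preserves_iff c ψ hψ hψ0 _).1 h1
    have hA := congrArg (LinearMap.toMatrix c c) (VJ_mul_VJ a ha Qb i hi 2)
    have hB := congrArg (LinearMap.toMatrix c c) h2
    rw [LinearMap.toMatrix_mul, map_neg, LinearMap.toMatrix_one] at hA
    rw [LinearMap.toMatrix_mul, map_neg, LinearMap.toMatrix_mul] at hB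
    rw [← LinearMap.det_toMatrix c] at hdet
    exact not_anticommute hA hB hdet

/-- At the prime three, a linear functional vanishing on `Γ¹` is zero. -/
theorem functional_three (ha : a ≠ 0)
    (c : Module.Basis (Fin 2) ℚ_[3] (RTM 3 (Pts Qb (curve a))))
    (ψ : RTM 3 (Pts Qb (curve a)) →ₗ[ℚ_[3]]
      RTM 3 (Pts Qb (curve a)) →ₗ[ℚ_[3]] ℚ_[3])
    (hψ : ψ.IsAlt) (hψ0 : ψ ≠ 0)
    (f : Module.End ℚ_[3] (RTM 3 (Pts Qb (curve a))) →ₗ[ℚ_[3]] ℚ_[3])
    (hf : ∀ g ∈ gimageOne Qb (curve a) 3 ψ, f g = 0) : f = 0 := by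
  have : CharZero Qb := charZero_of_injective_algebraMap (algebraMap ℚ Qb).injective
  have : IsAlgClosed Qb := IsAlgClosure.isAlgClosed ℚ
  obtain ⟨i, hi⟩ := IsAlgClosed.exists_pow_nat_eq (-1 : Qb) (n := 2) (by norm_num)
  obtain ⟨e, h1, h2, τ, hτi, hτ⟩ := exists_basis_three a ha Qb i hi
  obtain ⟨cc, hcc⟩ := exists_conj i hi
  -- coordinates of `τ e`
  obtain ⟨x, y, hxy⟩ := TateModule.exists_coords (JJ a ha Qb i hi) e h1
    (tact (l := 3) (act a Qb) τ e)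
  have hxy3 : ¬ (3 : ℤ_[3]) ∣ x ∧ ¬ (3 : ℤ_[3]) ∣ y := by
    obtain ⟨k, hk⟩ := TateModule.exists_int x 1
    obtain ⟨m, hm⟩ := TateModule.exists_int y 1
    have h5 : act a Qb τ (e.1 1) = k • e.1 1 + m • JJ a ha Qb i hi (e.1 1) := by
      have h6 := congrArg (fun z : TateModule 3 (Pts Qb (curve a)) => z.1 1) hxy
      simp only [TateModule.add_apply] at h6
      rw [TateModule.smul_apply x e 1 k hk, TateModule.smul_apply y _ 1 m hm,
        TateModule.map_apply] at h6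
      exact h6
    obtain ⟨h7, h8⟩ := hτ k m h5
    have key : ∀ (z : ℤ_[3]) (n : ℤ), ((3 : ℕ) : ℤ_[3]) ^ 1 ∣ z - n → ¬ (3 : ℤ) ∣ n →
        ¬ (3 : ℤ_[3]) ∣ z := by
      intro z n hz hn hz3
      apply hn
      have h9 : ((3 : ℕ) : ℤ_[3]) ^ 1 ∣ (n : ℤ_[3]) := by
        rw [pow_one] at hz ⊢
        have h10 : ((3 : ℕ) : ℤ_[3]) ∣ z := by exact_mod_cast hz3
        have := dvd_sub h10 hz
        simpa using this
      have := (PadicInt.pow_p_dvd_int_iff 1 n).1 h9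
      simpa using this
    exact ⟨key x k hk h7, key y m hm h8⟩
  -- the element `σ`
  obtain ⟨σ, hσ, hdet⟩ := exists_tdet_eq_one (act a Qb) (act_mul a Qb) (act_one a Qb)
    (JJ a ha Qb i hi) (JJ_JJ a ha Qb i hi) (sign i hi) (act_JJ a ha Qb i hi)
    (fun σ P => isOpen_act a Qb σ P) (isOpen_sign_eq i hi) e h1 h2 cc τ
    ((sign_eq_neg_one_iff i hi cc).2 hcc) ((sign_eq_one_iff i hi τ).2 hτi) x y hxy hxy3.1 hxy3.2
  -- determinants
  have := Module.Free.of_basis (TateModule.basisOf _ e h1 h2)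
  have := Module.Finite.of_basis (TateModule.basisOf _ e h1 h2)
  have hdetV : ∀ ρ : Qb ≃ₐ[ℚ] Qb, LinearMap.det (grep Qb (curve a) 3 ρ) =
      algebraMap ℤ_[3] ℚ_[3] (tdet (l := 3) (act a Qb) ρ) := by
    intro ρ
    exact LinearMap.det_baseChange _
  have hmem : ∀ ρ : Qb ≃ₐ[ℚ] Qb, tdet (l := 3) (act a Qb) ρ = 1 →
      grep Qb (curve a) 3 ρ ∈ gimageOne Qb (curve a) 3 ψ := by
    intro ρ hρ
    refine ⟨⟨ρ, rfl⟩, ?_⟩
    rw [preserves_iff c ψ hψ hψ0, hdetV, hρ, map_one]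
  have hgrp : ∀ ρ κ : Qb ≃ₐ[ℚ] Qb, tdet (l := 3) (act a Qb) ρ * tdet (l := 3) (act a Qb) ρ⁻¹ = 1 := by
    intro ρ κ
    rw [← tdet_mul _ (act_mul a Qb), mul_inv_cancel, tdet_one _ (act_one a Qb)]
  have hcomm : tdet (l := 3) (act a Qb) (σ * τ * σ⁻¹ * τ⁻¹) = 1 := by
    rw [tdet_mul _ (act_mul a Qb), tdet_mul _ (act_mul a Qb), tdet_mul _ (act_mul a Qb)]
    linear_combination (tdet (l := 3) (act a Qb) τ * tdet (l := 3) (act a Qb) τ⁻¹) * hgrp σ 1 +
      hgrp τ 1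
  have hcomm' : tdet (l := 3) (act a Qb) (σ * τ * σ⁻¹ * τ⁻¹ * σ) = 1 := by
    rw [tdet_mul _ (act_mul a Qb), hcomm, hdet, one_mul]
  have hone : tdet (l := 3) (act a Qb) 1 = 1 := tdet_one _ (act_one a Qb)
  -- `τ` acts as `x + y J`
  have hR : grep Qb (curve a) 3 τ = (x : ℚ_[3]) • (1 : Module.End ℚ_[3] _) +
      (y : ℚ_[3]) • VJ a ha Qb i hi 3 := by
    have h3 : tact (l := 3) (act a Qb) τ = x • (LinearMap.id) +
        y • TateModule.map (JJ a ha Qb i hi) := by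
      refine (TateModule.basisOf (JJ a ha Qb i hi) e h1 h2).ext fun j => ?_
      fin_cases j
      · show tact (l := 3) (act a Qb) τ (TateModule.basisOf (JJ a ha Qb i hi) e h1 h2 0) =
          x • (TateModule.basisOf (JJ a ha Qb i hi) e h1 h2 0) +
            y • TateModule.map (JJ a ha Qb i hi) (TateModule.basisOf (JJ a ha Qb i hi) e h1 h2 0)
        rw [TateModule.basisOf_zero, hxy]
      · show tact (l := 3) (act a Qb) τ (TateModule.basisOf (JJ a ha Qb i hi) e h1 h2 1) =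
          x • (TateModule.basisOf (JJ a ha Qb i hi) e h1 h2 1) +
            y • TateModule.map (JJ a ha Qb i hi) (TateModule.basisOf (JJ a ha Qb i hi) e h1 h2 1)
        rw [TateModule.basisOf_one, tact_J (act a Qb) (JJ a ha Qb i hi) (sign i hi)
          (act_JJ a ha Qb i hi) τ e, (sign_eq_one_iff i hi τ).2 hτi, Units.val_one,
          Int.cast_one, one_smul, hxy, map_add, map_smul, map_smul]
    have h4 := congrArg (LinearMap.baseChange ℚ_[3]) h3
    rw [LinearMap.baseChange_add, LinearMap.baseChange_smul, LinearMap.baseChange_smul,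
      LinearMap.baseChange_id] at h4
    refine Eq.trans (b := (tact (l := 3) (act a Qb) τ).baseChange ℚ_[3]) rfl (h4.trans ?_)
    have h5 : ∀ (z : ℤ_[3]) (T : Module.End ℚ_[3]
        (RTM 3 (Pts Qb (curve a)))), z • T = (z : ℚ_[3]) • T := by
      intro z T
      exact (algebraMap_smul ℚ_[3] z T).symm
    rw [← h5, ← h5]
    rfl
  -- independence of `e` and `J e`
  let B := Algebra.TensorProduct.basis ℚ_[3] (TateModule.basisOf (JJ a ha Qb i hi) e h1 h2)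
  have hB0 : B 0 = 1 ⊗ₜ[ℤ_[3]] e := by
    rw [Algebra.TensorProduct.basis_apply, TateModule.basisOf_zero]
  have hB1 : B 1 = VJ a ha Qb i hi 3 (1 ⊗ₜ[ℤ_[3]] e) := by
    rw [Algebra.TensorProduct.basis_apply, TateModule.basisOf_one]
    rfl
  have hv : ∀ s t : ℚ_[3], s • ((1 : ℚ_[3]) ⊗ₜ[ℤ_[3]] e) +
      t • VJ a ha Qb i hi 3 ((1 : ℚ_[3]) ⊗ₜ[ℤ_[3]] e) = 0 → s = 0 ∧ t = 0 := by
    intro s t hst
    have h3 := Fintype.linearIndependent_iff.1 B.linearIndependent ![s, t] (by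
      rw [Fin.sum_univ_two, hB0, hB1]
      exact hst)
    exact ⟨h3 0, h3 1⟩
  have hfin := finrank_three a ha Qb
  have : Module.Finite ℚ_[3] (RTM 3 (Pts Qb (curve a))) :=
    Module.Finite.of_basis c
  have hx0 : (x : ℚ_[3]) ≠ 0 := by
    intro h0
    apply hxy3.1
    have : x = 0 := PadicInt.ext (by simpa using h0)
    rw [this]
    exact dvd_zero _
  have hy0 : (y : ℚ_[3]) ≠ 0 := by
    intro h0
    apply hxy3.2
    have : y = 0 := PadicInt.ext (by simpa using h0)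
    rw [this]
    exact dvd_zero _
  have hSJ := galRep_VJ a ha Qb i hi 3 σ
  rw [hσ, Units.val_neg, Units.val_one, neg_smul, one_smul] at hSJ
  refine functional_eq_zero hfin (VJ a ha Qb i hi 3) (grep Qb (curve a) 3 σ)
    (grep Qb (curve a) 3 σ⁻¹) (grep Qb (curve a) 3 τ) (grep Qb (curve a) 3 τ⁻¹)
    (VJ_mul_VJ a ha Qb i hi 3) hSJ (galRep_mul_inv a Qb 3 σ) (galRep_inv_mul a Qb 3 σ)
    (galRep_mul_inv a Qb 3 τ) (galRep_inv_mul a Qb 3 τ) x y hx0 hy0 hR
    (1 ⊗ₜ[ℤ_[3]] e) hv f ?_ ?_ ?_ ?_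
  · rw [← galRep_one a Qb 3]
    exact hf _ (hmem 1 hone)
  · rw [← galRep_mul, ← galRep_mul, ← galRep_mul]
    exact hf _ (hmem _ hcomm)
  · exact hf _ (hmem σ hdet)
  · rw [← galRep_mul, ← galRep_mul, ← galRep_mul, ← galRep_mul]
    exact hf _ (hmem _ hcomm')

/-- The main theorem in terms of bases of the rational Tate modules. -/
theorem main (ha : a ≠ 0)
    (c₂ : Module.Basis (Fin 2) ℚ_[2] (RTM 2 (Pts Qb (curve a))))
    (c₃ : Module.Basis (Fin 2) ℚ_[3] (RTM 3 (Pts Qb (curve a))))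
    (ψ₂ : RTM 2 (Pts Qb (curve a)) →ₗ[ℚ_[2]]
      RTM 2 (Pts Qb (curve a)) →ₗ[ℚ_[2]] ℚ_[2])
    (ψ₃ : RTM 3 (Pts Qb (curve a)) →ₗ[ℚ_[3]]
      RTM 3 (Pts Qb (curve a)) →ₗ[ℚ_[3]] ℚ_[3])
    (hψ₂ : ψ₂.IsAlt) (hψ₂0 : ψ₂ ≠ 0) (hψ₃ : ψ₃.IsAlt) (hψ₃0 : ψ₃ ≠ 0)
    (I : Ideal (MvPolynomial (Fin 2 × Fin 2) ℚ))
    (h₂ : I.map (MvPolynomial.map (algebraMap ℚ ℚ_[2])) =
      closureIdeal c₂ (gimageOne Qb (curve a) 2 ψ₂))
    (h₃ : I.map (MvPolynomial.map (algebraMap ℚ ℚ_[3])) =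
      closureIdeal c₃ (gimageOne Qb (curve a) 3 ψ₃)) : False := by
  classical
  have : CharZero Qb := charZero_of_injective_algebraMap (algebraMap ℚ Qb).injective
  have : IsAlgClosed Qb := IsAlgClosure.isAlgClosed ℚ
  obtain ⟨i, hi⟩ := IsAlgClosed.exists_pow_nat_eq (-1 : Qb) (n := 2) (by norm_num)
  -- the matrix of complex multiplication at the prime two
  set A := LinearMap.toMatrix c₂ c₂ (VJ a ha Qb i hi 2) with hA
  have hAA : A * A = -1 := by
    have := congrArg (LinearMap.toMatrix c₂ c₂) (VJ_mul_VJ a ha Qb i hi 2)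
    rwa [LinearMap.toMatrix_mul, map_neg, LinearMap.toMatrix_one] at this
  have hA01 := entry_ne_zero hAA
  -- a linear equation for `Γ¹` at the prime two
  let p : MvPolynomial (Fin 2 × Fin 2) ℚ_[2] :=
    MvPolynomial.C (A 0 1) * MvPolynomial.X (1, 0) - MvPolynomial.C (A 1 0) * MvPolynomial.X (0, 1)
  have hp : p ∈ closureIdeal c₂ (gimageOne Qb (curve a) 2 ψ₂) := by
    rintro z ⟨g, hg, hz⟩
    have h1 := congrArg (LinearMap.toMatrix c₂ c₂)
      (commute_two a ha Qb i hi c₂ ψ₂ hψ₂ hψ₂0 g hg)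
    rw [LinearMap.toMatrix_mul, LinearMap.toMatrix_mul] at h1
    have h2 := congrFun (congrFun h1 0) 0
    rw [Matrix.mul_apply, Matrix.mul_apply, Fin.sum_univ_two, Fin.sum_univ_two, ← hA] at h2
    simp only [p, map_sub, map_mul, MvPolynomial.aeval_C, MvPolynomial.aeval_X, hz,
      Algebra.algebraMap_self, RingHom.id_apply]
    linear_combination -h2
  rw [← h₂] at hp
  -- descend it to the rationals
  obtain ⟨φ, hφ⟩ : ∃ φ : ℚ_[2] →ₗ[ℚ] ℚ, φ (A 0 1) ≠ 0 := by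
    by_contra hcon
    push Not at hcon
    exact hA01 ((Module.forall_dual_apply_eq_zero_iff ℚ (A 0 1)).1 hcon)
  have hq := applyCoeff_mem φ I p hp
  have hqe : applyCoeff φ p = MvPolynomial.C (φ (A 0 1)) * MvPolynomial.X (1, 0) -
      MvPolynomial.C (φ (A 1 0)) * MvPolynomial.X (0, 1) := by
    ext m
    rw [coeff_applyCoeff]
    simp only [p, MvPolynomial.coeff_sub, MvPolynomial.coeff_C_mul, MvPolynomial.coeff_X,
      map_sub, mul_ite, mul_one, mul_zero]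
    congr 1
    · split_ifs <;> simp
    · split_ifs <;> simp
  rw [hqe] at hq
  -- it gives a linear equation for `Γ¹` at the prime three
  have hq3 := Ideal.mem_map_of_mem (MvPolynomial.map (algebraMap ℚ ℚ_[3])) hq
  rw [h₃] at hq3
  let f : Module.End ℚ_[3] (RTM 3 (Pts Qb (curve a))) →ₗ[ℚ_[3]] ℚ_[3] :=
    (algebraMap ℚ ℚ_[3] (φ (A 0 1))) • (Matrix.entryLinearMap ℚ_[3] ℚ_[3] 1 0 ∘ₗ
        (LinearMap.toMatrix c₃ c₃).toLinearMap) -
      (algebraMap ℚ ℚ_[3] (φ (A 1 0))) • (Matrix.entryLinearMap ℚ_[3] ℚ_[3] 0 1 ∘ₗ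
        (LinearMap.toMatrix c₃ c₃).toLinearMap)
  have hf : f = 0 := by
    refine functional_three a Qb ha c₃ ψ₃ hψ₃ hψ₃0 f fun g hg => ?_
    have h1 := hq3 (fun ij => LinearMap.toMatrix c₃ c₃ g ij.1 ij.2) ⟨g, hg, fun _ => rfl⟩
    simp only [map_sub, map_mul, MvPolynomial.map_C, MvPolynomial.map_X, MvPolynomial.aeval_C,
      MvPolynomial.aeval_X, Algebra.algebraMap_self, RingHom.id_apply] at h1
    exact h1
  have h1 := congrArg (fun F => F (Matrix.toLin c₃ c₃ (Matrix.single 1 0 1))) hf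
  have h2 : f (Matrix.toLin c₃ c₃ (Matrix.single 1 0 1)) = algebraMap ℚ ℚ_[3] (φ (A 0 1)) := by
    show algebraMap ℚ ℚ_[3] (φ (A 0 1)) *
        (LinearMap.toMatrix c₃ c₃ (Matrix.toLin c₃ c₃ (Matrix.single 1 0 1))) 1 0 -
      algebraMap ℚ ℚ_[3] (φ (A 1 0)) *
        (LinearMap.toMatrix c₃ c₃ (Matrix.toLin c₃ c₃ (Matrix.single 1 0 1))) 0 1 = _
    rw [LinearMap.toMatrix_toLin]
    simp
  simp only [h2, LinearMap.zero_apply] at h1
  exact hφ (by simpa using h1)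

end final

end Pool.Agent.Lib.P7a3e68
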