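import Mathlib

/-!
# Automorphisms of the algebraic closure of `ℚ` and square roots
-/

namespace Pool.Agent.Lib.P7a3e68

open Polynomial

section sqrt

variable {k L : Type*} [Field k] [Field L] [Algebra k L] [Normal k L]

/-- If `d` is not a square in `k`, some automorphism changes the sign of a square root of `d`. -/
theorem exists_neg_sqrt (d : k) (hd : ∀ r : k, r ^ 2 ≠ d) (x : L)
    (hx : x ^ 2 = algebraMap k L d) : ∃ σ : L ≃ₐ[k] L, σ x = -x := by
  have hirr : Irreducible (X ^ 2 - C d : k[X]) :=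
    (X_pow_sub_C_irreducible_iff_of_prime Nat.prime_two).2 hd
  have hmonic : (X ^ 2 - C d : k[X]).Monic := monic_X_pow_sub_C d two_ne_zero
  have h1 : minpoly k x = X ^ 2 - C d := by
    refine (minpoly.eq_of_irreducible_of_monic hirr ?_ hmonic).symm
    simp [hx]
  have h2 : minpoly k (-x) = X ^ 2 - C d := by
    refine (minpoly.eq_of_irreducible_of_monic hirr ?_ hmonic).symm
    simp [hx]
  have h3 : IsConjRoot k (-x) x := by
    show minpoly k (-x) = minpoly k x
    rw [h1, h2]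
  exact isConjRoot_iff_exists_algEquiv.1 h3

end sqrt

theorem sq_ne_neg (d : ℚ) (hd : d < 0) (r : ℚ) : r ^ 2 ≠ d := by
  intro h
  have := sq_nonneg r
  linarith

theorem sq_ne_three (r : ℚ) : r ^ 2 ≠ 3 := by
  intro h
  have h1 : Irrational (Real.sqrt 3) := by
    have := Nat.Prime.irrational_sqrt Nat.prime_three
    exact_mod_cast this
  apply h1
  have h2 : ((|r| : ℚ) : ℝ) = Real.sqrt 3 := by
    rw [Rat.cast_abs, ← Real.sqrt_sq_eq_abs]
    congr 1
    exact_mod_cast h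
  exact ⟨|r|, h2⟩

section

variable {Qb : Type*} [Field Qb] [Algebra ℚ Qb] [IsAlgClosure ℚ Qb] [CharZero Qb]
  (i s : Qb) (hi : i ^ 2 = -1) (hs : s ^ 2 = 3)

include hi in
theorem exists_conj : ∃ c : Qb ≃ₐ[ℚ] Qb, c i = -i :=
  exists_neg_sqrt (-1) (sq_ne_neg _ (by norm_num)) i (by rw [hi]; simp)

include hi in
theorem apply_i_cases (σ : Qb ≃ₐ[ℚ] Qb) :
    σ i = i ∨ σ i = -i := by
  have h1 : (σ i) ^ 2 = i ^ 2 := by
    rw [← map_pow, hi, map_neg, map_one]
  exact sq_eq_sq_iff_eq_or_eq_neg.1 h1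

include hs in
theorem apply_s_cases (σ : Qb ≃ₐ[ℚ] Qb) :
    σ s = s ∨ σ s = -s := by
  have h1 : (σ s) ^ 2 = s ^ 2 := by
    rw [← map_pow, hs, map_ofNat]
  exact sq_eq_sq_iff_eq_or_eq_neg.1 h1

include hi in
theorem i_ne_neg : i ≠ -i := by
  intro h
  have h1 : i = 0 := by
    have : (2 : Qb) * i = 0 := by linear_combination h
    exact (mul_eq_zero.1 this).resolve_left two_ne_zero
  rw [h1] at hi
  norm_num at hi

include hi hs in
/-- An automorphism fixing `i` and changing the sign of `√3`. -/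
theorem exists_tau : ∃ τ : Qb ≃ₐ[ℚ] Qb, τ i = i ∧ τ s = -s := by
  obtain ⟨σ₁, h1⟩ := exists_neg_sqrt (3 : ℚ) sq_ne_three s (by rw [hs]; simp)
  obtain ⟨σ₂, h2⟩ := exists_neg_sqrt (-3 : ℚ) (sq_ne_neg _ (by norm_num)) (i * s)
    (by rw [mul_pow, hi, hs]; simp)
  rcases apply_i_cases i hi σ₁ with h3 | h3
  · exact ⟨σ₁, h3, h1⟩
  have hi0 : i ≠ 0 := by
    rintro rfl
    norm_num at hi
  have hs0 : s ≠ 0 := by
    rintro rfl
    norm_num at hs
  rcases apply_i_cases i hi σ₂ with h4 | h4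
  · refine ⟨σ₂, h4, ?_⟩
    rw [map_mul, h4] at h2
    exact mul_left_cancel₀ hi0 (by linear_combination h2)
  · have h5 : σ₂ s = s := by
      rw [map_mul, h4] at h2
      exact mul_left_cancel₀ hi0 (by linear_combination -h2)
    refine ⟨σ₁ * σ₂, ?_, ?_⟩
    · rw [AlgEquiv.mul_apply, h4, map_neg, h3, neg_neg]
    · rw [AlgEquiv.mul_apply, h5, h1]

open scoped Classical in
/-- The quadratic character of the Galois group attached to `i`. -/
noncomputable def sign (hi : i ^ 2 = -1) : (Qb ≃ₐ[ℚ] Qb) →* ℤˣ where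
  toFun σ := if σ i = i then 1 else -1
  map_one' := by simp
  map_mul' σ τ := by
    have hne := i_ne_neg i hi
    rcases apply_i_cases i hi σ with h1 | h1 <;> rcases apply_i_cases i hi τ with h2 | h2
    · rw [AlgEquiv.mul_apply, h2, h1]; simp
    · rw [AlgEquiv.mul_apply, h2, map_neg, h1, if_neg hne.symm]; simp
    · rw [AlgEquiv.mul_apply, h2, h1, if_neg hne.symm]; simp
    · rw [AlgEquiv.mul_apply, h2, map_neg, h1, neg_neg, if_neg hne.symm]; simp

theorem sign_eq_one_iff (σ : Qb ≃ₐ[ℚ] Qb) :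
    sign i hi σ = 1 ↔ σ i = i := by
  classical
  show (if σ i = i then (1 : ℤˣ) else -1) = 1 ↔ _
  split_ifs with h
  · simp [h]
  · simp only [h, iff_false]
    decide

theorem sign_eq_neg_one_iff (σ : Qb ≃ₐ[ℚ] Qb) :
    sign i hi σ = -1 ↔ σ i = -i := by
  classical
  show (if σ i = i then (1 : ℤˣ) else -1) = -1 ↔ _
  rcases apply_i_cases i hi σ with h | h
  · rw [h, if_pos rfl]
    constructor
    · intro h'
      exact absurd h' (by decide)
    · intro h'
      exact absurd h' (i_ne_neg i hi)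
  · rw [h, if_neg (i_ne_neg i hi).symm]
    simp

theorem isOpen_apply_eq (x : Qb)
    (σ : Qb ≃ₐ[ℚ] Qb) : IsOpen {σ' : Qb ≃ₐ[ℚ] Qb | σ' x = σ x} := by
  have h1 := (stabilizer_isOpen_of_isIntegral (K := ℚ) x).leftCoset σ
  convert h1 using 1
  ext σ'
  rw [Set.mem_ofPred_eq, Set.mem_smul_set_iff_inv_smul_mem, SetLike.mem_coe,
    MulAction.mem_stabilizer_iff, smul_eq_mul, mul_smul]
  show σ' x = σ x ↔ σ⁻¹ (σ' x) = x
  constructor
  · intro h
    rw [h]
    exact σ.symm_apply_apply x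
  · intro h
    have h2 := congrArg σ h
    rwa [show σ (σ⁻¹ (σ' x)) = σ' x from σ.apply_symm_apply _] at h2

theorem isOpen_sign_eq (σ : Qb ≃ₐ[ℚ] Qb) :
    IsOpen {σ' : Qb ≃ₐ[ℚ] Qb | sign i hi σ' = sign i hi σ} := by
  have h1 := isOpen_apply_eq i σ
  convert h1 using 1
  ext σ'
  simp only [Set.mem_ofPred_eq]
  rcases apply_i_cases i hi σ with h | h
  · rw [(sign_eq_one_iff i hi σ).2 h, h, sign_eq_one_iff]
  · rw [(sign_eq_neg_one_iff i hi σ).2 h, h, sign_eq_neg_one_iff]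

end

end Pool.Agent.Lib.P7a3e68
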