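import Pool.Agent.Lib.P7a3e68.Defs

/-!
# Working versions of the definitions in terms of tensor products
-/

namespace Pool.Agent.Lib.P7a3e68

open scoped TensorProduct WeierstrassCurve.Affine

section defs

variable {F : Type*} [Field F] (Fbar : Type*) [Field Fbar] [DecidableEq Fbar] [Algebra F Fbar]
  (W : WeierstrassCurve F) (l : ℕ) [Fact l.Prime]

/-- The group `W(Fbar)` of points of the Weierstrass curve `W` over `Fbar`. -/
abbrev Pts : Type _ := (W.toAffine⁄Fbar).Point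

/-- The rational Tate module `V_l M = ℚ_l ⊗ T_l M` of an abelian group `M`. -/
abbrev RTM (M : Type*) [AddCommGroup M] : Type _ := ℚ_[l] ⊗[ℤ_[l]] TateModule l M

/-- The `l`-adic Galois representation. -/
noncomputable def grep (σ : Fbar ≃ₐ[F] Fbar) :
    Module.End ℚ_[l] (RTM l (Pts Fbar W)) :=
  (TateModule.map (l := l)
    (WeierstrassCurve.Affine.Point.map (W' := W.toAffine) (σ : Fbar →ₐ[F] Fbar))).baseChange ℚ_[l]

/-- The group `Γ¹_l`. -/
def gimageOne
    (ψ : RTM l (Pts Fbar W) →ₗ[ℚ_[l]] RTM l (Pts Fbar W) →ₗ[ℚ_[l]] ℚ_[l]) :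
    Set (Module.End ℚ_[l] (RTM l (Pts Fbar W))) :=
  {g | (∃ σ : Fbar ≃ₐ[F] Fbar, grep Fbar W l σ = g) ∧ ∀ x y, ψ (g x) (g y) = ψ x y}

theorem galRep_eq_grep (σ : Fbar ≃ₐ[F] Fbar) : galRep Fbar W l σ = grep Fbar W l σ := rfl

theorem galImageOne_eq (ψ : LinearMap.BilinForm ℚ_[l] (VTate Fbar W l)) :
    galImageOne Fbar W l ψ = gimageOne Fbar W l ψ := rfl

end defs

end Pool.Agent.Lib.P7a3e68
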