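import Pool.Agent.Lib.P7a3e68.CM

/-!
# Linear algebra: quaternions over `ℚ₂`, alternating forms in dimension two, descent of
linear equations from `ℚ₂` to `ℚ`
-/

namespace Pool.Agent.Lib.P7a3e68

open MvPolynomial

/-! ### `-1` is not a sum of two squares in `ℚ₂` -/

section two

theorem zmod4_a : ∀ x y : ZMod (2 ^ 2), x ^ 2 + y ^ 2 ≠ -1 := by decide

theorem zmod4_b : ∀ x y : ZMod (2 ^ 2), x ^ 2 + y ^ 2 = 0 → 2 * x = 0 ∧ 2 * y = 0 := by decide

theorem two_dvd_of_toZModPow {x : ℤ_[2]} (h : 2 * PadicInt.toZModPow 2 x = 0) :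
    (2 : ℤ_[2]) ∣ x := by
  have h1 : PadicInt.toZModPow 2 (2 * x) = 0 := by
    rw [map_mul, map_ofNat, h]
  rw [← RingHom.mem_ker, PadicInt.ker_toZModPow, Ideal.mem_span_singleton] at h1
  obtain ⟨c, hc⟩ := h1
  refine ⟨c, ?_⟩
  have h2 : (2 : ℤ_[2]) ≠ 0 := by norm_num
  apply mul_left_cancel₀ h2
  rw [hc]
  push_cast
  ring

theorem padicInt_two_ne (k : ℕ) (x y : ℤ_[2]) : x ^ 2 + y ^ 2 ≠ -(4 : ℤ_[2]) ^ k := by
  induction k generalizing x y with
  | zero =>
    intro h
    have h1 := congrArg (PadicInt.toZModPow 2) h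
    rw [pow_zero, map_add, map_pow, map_pow, map_neg, map_one] at h1
    exact zmod4_a _ _ h1
  | succ k ih =>
    intro h
    have h1 := congrArg (PadicInt.toZModPow 2) h
    rw [map_add, map_pow, map_pow, map_neg, map_pow, map_ofNat] at h1
    have h4 : (4 : ZMod (2 ^ 2)) = 0 := by decide
    have h0 : (OfNat.ofNat 4 : ZMod (2 ^ 2)) = 0 := h4
    rw [h0, zero_pow (Nat.succ_ne_zero k), neg_zero] at h1
    obtain ⟨h2, h3⟩ := zmod4_b _ _ h1
    obtain ⟨x', rfl⟩ := two_dvd_of_toZModPow h2
    obtain ⟨y', rfl⟩ := two_dvd_of_toZModPow h3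
    refine ih x' y' ?_
    have h5 : (4 : ℤ_[2]) ≠ 0 := by norm_num
    apply mul_left_cancel₀ h5
    rw [pow_succ] at h
    linear_combination h

theorem exists_pow_mul_norm_le (u : ℚ_[2]) : ∃ k : ℕ, ∀ m, k ≤ m → ‖(2 : ℚ_[2]) ^ m * u‖ ≤ 1 := by
  obtain ⟨k, hk⟩ := pow_unbounded_of_one_lt ‖u‖ (one_lt_two (α := ℝ))
  refine ⟨k, fun m hm => ?_⟩
  have h2 : ‖(2 : ℚ_[2])‖ = 2⁻¹ := by
    have := Padic.norm_p (p := 2)
    exact_mod_cast this
  rw [norm_mul, norm_pow, h2, inv_pow, inv_mul_le_iff₀ (by positivity), mul_one]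
  exact hk.le.trans (pow_le_pow_right₀ one_le_two hm)

theorem sum_sq_ne_neg_one (u v : ℚ_[2]) : u ^ 2 + v ^ 2 ≠ -1 := by
  intro h
  obtain ⟨k, hk⟩ := exists_pow_mul_norm_le u
  obtain ⟨m, hm⟩ := exists_pow_mul_norm_le v
  set n := max k m with hn
  have h1 := hk n (le_max_left _ _)
  have h2 := hm n (le_max_right _ _)
  obtain ⟨x, hx⟩ : ∃ x : ℤ_[2], (x : ℚ_[2]) = 2 ^ n * u := ⟨⟨_, h1⟩, rfl⟩
  obtain ⟨y, hy⟩ : ∃ y : ℤ_[2], (y : ℚ_[2]) = 2 ^ n * v := ⟨⟨_, h2⟩, rfl⟩
  refine padicInt_two_ne n x y ?_
  apply PadicInt.ext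
  have e4 : ((-(4 : ℤ_[2]) ^ n : ℤ_[2]) : ℚ_[2]) = -(4 : ℚ_[2]) ^ n := by
    rw [PadicInt.coe_neg, PadicInt.coe_pow]
    rfl
  rw [e4, PadicInt.coe_add, PadicInt.coe_pow, PadicInt.coe_pow, hx, hy]
  have h4 : (4 : ℚ_[2]) ^ n = (2 ^ n) ^ 2 := by
    rw [← pow_mul, mul_comm, pow_mul]
    norm_num
  rw [h4]
  linear_combination ((2 : ℚ_[2]) ^ n) ^ 2 * h

/-- A matrix over `ℚ₂` with square `-1` has a nonzero upper right entry. -/
theorem entry_ne_zero {A : Matrix (Fin 2) (Fin 2) ℚ_[2]} (hA : A * A = -1) : A 0 1 ≠ 0 := by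
  intro h0
  have h1 := congrFun (congrFun hA 0) 0
  rw [Matrix.mul_apply, Fin.sum_univ_two, h0] at h1
  simp at h1
  exact sum_sq_ne_neg_one (A 0 0) 0 (by linear_combination h1)

/-- Over `ℚ₂` there is no matrix of determinant one which anticommutes with a matrix of
square `-1`: the quaternion algebra `(-1, -1)` is not split over `ℚ₂`. -/
theorem not_anticommute {A B : Matrix (Fin 2) (Fin 2) ℚ_[2]} (hA : A * A = -1)
    (hAB : B * A = -(A * B)) (hB : B.det = 1) : False := by
  have hb := entry_ne_zero hA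
  have a00 := congrFun (congrFun hA 0) 0
  have a01 := congrFun (congrFun hA 0) 1
  have b00 := congrFun (congrFun hAB 0) 0
  have b01 := congrFun (congrFun hAB 0) 1
  have b10 := congrFun (congrFun hAB 1) 0
  have b11 := congrFun (congrFun hAB 1) 1
  rw [Matrix.det_fin_two] at hB
  simp only [Matrix.mul_apply, Fin.sum_univ_two, Matrix.neg_apply, Matrix.one_apply_eq,
    Matrix.one_apply_ne (show (0 : Fin 2) ≠ 1 by decide)] at a00 a01 b00 b01 b10 b11
  set a := A 0 0
  set b := A 0 1
  set c := A 1 0
  set d := A 1 1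
  set p := B 0 0
  set q := B 0 1
  set r := B 1 0
  set s := B 1 1
  -- the trace of `A` is zero
  have hd : d = -a := by
    have h1 : b * (a + d) = 0 := by linear_combination a01
    have := (mul_eq_zero.1 h1).resolve_left hb
    linear_combination this
  -- the trace of `B` is zero
  have hs : s = -p := by
    rw [hd] at b01
    have h1 : b * (p + s) = 0 := by linear_combination b01
    have := (mul_eq_zero.1 h1).resolve_left hb
    linear_combination this
  rw [hs] at hB
  -- `(b p - a q)² + q² = - b²`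
  have key : (b * p - a * q) ^ 2 + q ^ 2 = -b ^ 2 := by
    linear_combination (-b ^ 2) * hB + (q ^ 2) * a00 + (-b * q) * b00
  refine sum_sq_ne_neg_one ((b * p - a * q) / b) (q / b) ?_
  rw [div_pow, div_pow, ← add_div, key, neg_div, div_self (pow_ne_zero 2 hb)]

end two

/-! ### Alternating forms in dimension two -/

section forms

variable {k V : Type*} [Field k] [AddCommGroup V] [Module k V] (c : Module.Basis (Fin 2) k V)

theorem alt_formula (χ : V →ₗ[k] V →ₗ[k] k) (hχ : χ.IsAlt) (x y : V) :
    χ x y = (c.repr x 0 * c.repr y 1 - c.repr x 1 * c.repr y 0) * χ (c 0) (c 1) := by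
  have hx : x = c.repr x 0 • c 0 + c.repr x 1 • c 1 := by
    conv_lhs => rw [← c.sum_repr x, Fin.sum_univ_two]
  have hy : y = c.repr y 0 • c 0 + c.repr y 1 • c 1 := by
    conv_lhs => rw [← c.sum_repr y, Fin.sum_univ_two]
  have h10 : χ (c 1) (c 0) = -χ (c 0) (c 1) := (hχ.neg (c 1) (c 0)).symm ▸ by
    rw [← hχ.neg (c 0) (c 1), neg_neg]
  conv_lhs => rw [hx, hy]
  simp only [map_add, map_smul, LinearMap.add_apply, LinearMap.smul_apply, smul_eq_mul,
    hχ.self_eq_zero, h10]
  ring

include c in
theorem preserves_iff (ψ : V →ₗ[k] V →ₗ[k] k) (hψ : ψ.IsAlt) (hψ0 : ψ ≠ 0) (g : V →ₗ[k] V) :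
    (∀ x y, ψ (g x) (g y) = ψ x y) ↔ LinearMap.det g = 1 := by
  have hα : ψ (c 0) (c 1) ≠ 0 := by
    intro h0
    apply hψ0
    ext x y
    rw [alt_formula c ψ hψ x y, h0, mul_zero]
    rfl
  have hdet : LinearMap.det g = c.repr (g (c 0)) 0 * c.repr (g (c 1)) 1 -
      c.repr (g (c 0)) 1 * c.repr (g (c 1)) 0 := by
    rw [← LinearMap.det_toMatrix c, Matrix.det_fin_two]
    simp only [LinearMap.toMatrix_apply]
    ring
  have h01 : ψ (g (c 0)) (g (c 1)) = LinearMap.det g * ψ (c 0) (c 1) := by
    rw [alt_formula c ψ hψ (g (c 0)) (g (c 1)), hdet]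
  constructor
  · intro h
    have := h (c 0) (c 1)
    rw [h01] at this
    exact mul_right_cancel₀ hα (by rw [this, one_mul])
  · intro h x y
    have hχ : (ψ.compl₁₂ g g).IsAlt := fun x => by
      rw [LinearMap.compl₁₂_apply]
      exact hψ.self_eq_zero _
    have h1 := alt_formula c (ψ.compl₁₂ g g) hχ x y
    rw [LinearMap.compl₁₂_apply, LinearMap.compl₁₂_apply, h01, h, one_mul] at h1
    rw [h1, ← alt_formula c ψ hψ x y]

end forms

/-! ### Four linearly independent endomorphisms -/

section four

variable {k V : Type*} [Field k] [CharZero k] [AddCommGroup V] [Module k V]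
  [Module.Finite k V]

theorem functional_eq_zero (hV : Module.finrank k V = 2) (J S S' R R' : Module.End k V)
    (hJ : J * J = -1) (hSJ : S * J = -(J * S)) (hS1 : S * S' = 1) (hS2 : S' * S = 1)
    (hR1 : R * R' = 1) (hR2 : R' * R = 1) (x y : k) (hx : x ≠ 0) (hy : y ≠ 0)
    (hR : R = x • (1 : Module.End k V) + y • J) (v : V)
    (hv : ∀ a b : k, a • v + b • J v = 0 → a = 0 ∧ b = 0)
    (f : Module.End k V →ₗ[k] k) (h1 : f 1 = 0) (h2 : f (S * R * S' * R') = 0)
    (h3 : f S = 0) (h4 : f (S * R * S' * R' * S) = 0) : f = 0 := by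
  set g := S * R * S' * R' with hg
  have hRJ : R * J = J * R := by
    rw [hR, add_mul, mul_add, smul_mul_assoc, smul_mul_assoc, mul_smul_comm, mul_smul_comm,
      one_mul, mul_one]
  have hS'J : S' * J = -(J * S') := by
    calc S' * J = S' * J * (S * S') := by rw [hS1, mul_one]
      _ = S' * (J * S) * S' := by noncomm_ring
      _ = S' * (-(S * J)) * S' := by rw [hSJ, neg_neg]
      _ = -((S' * S) * (J * S')) := by noncomm_ring
      _ = -(J * S') := by rw [hS2, one_mul]
  have hR'J : R' * J = J * R' := by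
    calc R' * J = R' * J * (R * R') := by rw [hR1, mul_one]
      _ = R' * (J * R) * R' := by noncomm_ring
      _ = R' * (R * J) * R' := by rw [hRJ]
      _ = (R' * R) * (J * R') := by noncomm_ring
      _ = J * R' := by rw [hR2, one_mul]
  have hgJ : g * J = J * g := by
    calc g * J = S * R * S' * (R' * J) := by rw [hg]; noncomm_ring
      _ = S * R * (S' * J) * R' := by rw [hR'J]; noncomm_ring
      _ = -(S * (R * J) * S' * R') := by rw [hS'J]; noncomm_ring
      _ = -((S * J) * R * S' * R') := by rw [hRJ]; noncomm_ring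
      _ = J * g := by rw [hSJ, hg]; noncomm_ring
  have hv0 : v ≠ 0 := by
    rintro rfl
    have := (hv 1 0 (by simp)).1
    exact one_ne_zero this
  have h10 : (1 : Module.End k V) ≠ 0 := by
    intro h
    exact hv0 (by simpa using congrArg (fun T : Module.End k V => T v) h)
  -- `1` and `g` are linearly independent
  have key : ∀ a b : k, a • (1 : Module.End k V) + b • g = 0 → a = 0 ∧ b = 0 := by
    intro a b hab
    have hb : b = 0 := by
      by_contra hb
      have e1 : g = (-(a / b)) • (1 : Module.End k V) := by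
        have e0 : b • g = (-a) • (1 : Module.End k V) := by
          rw [neg_smul]
          exact eq_neg_of_add_eq_zero_right hab
        have e0' := congrArg (fun T => b⁻¹ • T) e0
        simp only [smul_smul, inv_mul_cancel₀ hb, one_smul] at e0'
        rw [e0']
        congr 1
        field_simp
      set t := -(a / b) with ht
      -- `S R = t R S`
      have e2 : S * R = t • (R * S) := by
        have e3 : g * (R * S) = S * R := by
          rw [hg]
          calc S * R * S' * R' * (R * S) = S * R * S' * (R' * R) * S := by noncomm_ring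
            _ = S * R * (S' * S) := by rw [hR2]; noncomm_ring
            _ = S * R := by rw [hS2, mul_one]
        rw [← e3, e1, smul_mul_assoc, one_mul]
      have e4 : S * R = (x • (1 : Module.End k V) - y • J) * S := by
        rw [hR, mul_add, mul_smul_comm, mul_smul_comm, mul_one, hSJ, sub_mul, smul_mul_assoc,
          smul_mul_assoc, one_mul, smul_neg, sub_eq_add_neg]
      have e5 : (x • (1 : Module.End k V) - y • J) = t • R := by
        have e6 : (x • (1 : Module.End k V) - y • J) * S * S' = (t • (R * S)) * S' := by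
          rw [← e4, e2]
        rw [mul_assoc, hS1, mul_one, smul_mul_assoc, mul_assoc, hS1, mul_one] at e6
        exact e6
      have e7 : (x - t * x) • v + (-y - t * y) • J v = 0 := by
        have e8 := congrArg (fun T : Module.End k V => T v) e5
        rw [hR] at e8
        simp only [LinearMap.sub_apply, LinearMap.smul_apply, LinearMap.add_apply,
          Module.End.one_apply, smul_add, smul_smul] at e8
        rw [sub_smul, sub_smul, neg_smul]
        rw [sub_eq_iff_eq_add] at e8
        rw [e8]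
        abel
      obtain ⟨e8, e9⟩ := hv _ _ e7
      have t1 : t = 1 := by
        have : x * (1 - t) = 0 := by linear_combination e8
        have := (mul_eq_zero.1 this).resolve_left hx
        linear_combination -this
      have t2 : t = -1 := by
        have : y * (1 + t) = 0 := by linear_combination -e9
        have := (mul_eq_zero.1 this).resolve_left hy
        linear_combination this
      have : (2 : k) = 0 := by linear_combination t2 - t1
      exact two_ne_zero this
    refine ⟨?_, hb⟩
    rw [hb, zero_smul, add_zero] at hab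
    exact (smul_eq_zero.1 hab).resolve_right h10
  have hli : LinearIndependent k ![(1 : Module.End k V), g, S, g * S] := by
    rw [Fintype.linearIndependent_iff]
    intro c hc
    rw [Fin.sum_univ_four] at hc
    simp only [Matrix.cons_val_zero, Matrix.cons_val_one, Matrix.cons_val] at hc
    set X := c 0 • (1 : Module.End k V) + c 1 • g with hX
    set Y := c 2 • (1 : Module.End k V) + c 3 • g with hY
    have hXY : X + Y * S = 0 := by
      calc X + Y * S = X + c 2 • S + c 3 • (g * S) := by
            rw [hY, add_mul, smul_mul_assoc, smul_mul_assoc, one_mul]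
            exact (add_assoc X _ _).symm
        _ = 0 := hc
    have hXJ : X * J = J * X := by
      rw [hX, add_mul, mul_add, smul_mul_assoc, smul_mul_assoc, mul_smul_comm, mul_smul_comm,
        one_mul, mul_one, hgJ]
    have hYJ : Y * J = J * Y := by
      rw [hY, add_mul, mul_add, smul_mul_assoc, smul_mul_assoc, mul_smul_comm, mul_smul_comm,
        one_mul, mul_one, hgJ]
    have hXY' : X - Y * S = 0 := by
      have e1 : (X + Y * S) * J = J * (X - Y * S) := by
        rw [add_mul, mul_sub, hXJ, mul_assoc, hSJ, mul_neg, ← mul_assoc, hYJ]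
        noncomm_ring
      rw [hXY, zero_mul] at e1
      have e2 : J * (J * (X - Y * S)) = 0 := by rw [← e1, mul_zero]
      rw [← mul_assoc, hJ, neg_mul, one_mul, neg_eq_zero] at e2
      exact e2
    have hX0 : X = 0 := by
      have e1 : (2 : k) • X = 0 := by
        rw [two_smul]
        calc X + X = (X + Y * S) + (X - Y * S) := by abel
          _ = 0 := by rw [hXY, hXY', add_zero]
      exact (smul_eq_zero.1 e1).resolve_left two_ne_zero
    have hY0 : Y = 0 := by
      rw [hX0, zero_add] at hXY
      calc Y = Y * S * S' := by rw [mul_assoc, hS1, mul_one]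
        _ = 0 := by rw [hXY, zero_mul]
    obtain ⟨c0, c1⟩ := key _ _ hX0
    obtain ⟨c2, c3⟩ := key _ _ hY0
    intro j
    fin_cases j
    · exact c0
    · exact c1
    · exact c2
    · exact c3
  have hfin : Module.finrank k (Module.End k V) = 4 := by
    show Module.finrank k (V →ₗ[k] V) = 4
    rw [Module.finrank_linearMap, hV]
  have hspan := hli.span_eq_top_of_card_eq_finrank' (by rw [hfin]; rfl)
  refine LinearMap.ext_on hspan ?_
  rintro _ ⟨j, rfl⟩
  fin_cases j
  · simpa using h1
  · simpa using h2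
  · simpa using h3
  · simpa using h4

end four

end Pool.Agent.Lib.P7a3e68
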