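import Pool.Agent.Lib.P7a3e68.Divisible

/-!
# Two- and three-torsion of `y² = x³ + A x`
-/

namespace Pool.Agent.Lib.P7a3e68

open WeierstrassCurve WeierstrassCurve.Affine

theorem ind_two {M : Type*} [AddCommGroup M] {P Q : M} (hP2 : (2 : ℕ) • P = 0)
    (hQ2 : (2 : ℕ) • Q = 0) (hP : P ≠ 0) (hQ : Q ≠ 0) (hPQ : P + Q ≠ 0) (u v : ℤ)
    (h : u • P + v • Q = 0) : (2 : ℤ) ∣ u ∧ (2 : ℤ) ∣ v := by
  have key : ∀ (T : M), (2 : ℕ) • T = 0 → ∀ k : ℤ, k • T = (k % 2) • T := by
    intro T hT k
    have h1 : k = 2 * (k / 2) + k % 2 := (Int.mul_ediv_add_emod k 2).symm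
    conv_lhs => rw [h1]
    rw [add_smul, mul_comm, mul_smul]
    have : (2 : ℤ) • T = 0 := by exact_mod_cast hT
    rw [this, smul_zero, zero_add]
  rw [key P hP2 u, key Q hQ2 v] at h
  rcases Int.emod_two_eq_zero_or_one u with hu | hu <;>
    rcases Int.emod_two_eq_zero_or_one v with hv | hv
  · exact ⟨Int.dvd_of_emod_eq_zero hu, Int.dvd_of_emod_eq_zero hv⟩
  · rw [hu, hv] at h; simp at h; exact absurd h hQ
  · rw [hu, hv] at h; simp at h; exact absurd h hP
  · rw [hu, hv] at h; simp at h; exact absurd h hPQ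

theorem emod_three_cases (u : ℤ) : u % 3 = 0 ∨ u % 3 = 1 ∨ u % 3 = 2 := by omega

theorem zsmul_mod_three {M : Type*} [AddCommGroup M] (T : M) (hT : (3 : ℕ) • T = 0) (k : ℤ) :
    k • T = (k % 3) • T := by
  have h1 : k = 3 * (k / 3) + k % 3 := (Int.mul_ediv_add_emod k 3).symm
  conv_lhs => rw [h1]
  rw [add_smul, mul_comm, mul_smul]
  have : (3 : ℤ) • T = 0 := by exact_mod_cast hT
  rw [this, smul_zero, zero_add]

theorem two_zsmul_eq_neg {M : Type*} [AddCommGroup M] (T : M) (hT : (3 : ℕ) • T = 0) :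
    (2 : ℤ) • T = -T := by
  have h1 : (2 : ℤ) • T + T = 0 := by
    have : (3 : ℤ) • T = 0 := by exact_mod_cast hT
    rw [← this]
    have h3 : (3 : ℤ) = 2 + 1 := by norm_num
    rw [h3, add_smul, one_smul]
  exact eq_neg_of_add_eq_zero_left h1

theorem ind_three {M : Type*} [AddCommGroup M] {P Q : M} (hP3 : (3 : ℕ) • P = 0)
    (hQ3 : (3 : ℕ) • Q = 0) (hP : P ≠ 0) (hQ : Q ≠ 0) (hPQ : P ≠ Q) (hPQ' : P ≠ -Q) (u v : ℤ)
    (h : u • P + v • Q = 0) : (3 : ℤ) ∣ u ∧ (3 : ℤ) ∣ v := by
  rw [zsmul_mod_three P hP3 u, zsmul_mod_three Q hQ3 v] at h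
  rcases emod_three_cases u with hu | hu | hu <;> rcases emod_three_cases v with hv | hv | hv
  · exact ⟨Int.dvd_of_emod_eq_zero hu, Int.dvd_of_emod_eq_zero hv⟩
  · rw [hu, hv] at h; simp at h; exact absurd h hQ
  · rw [hu, hv, two_zsmul_eq_neg Q hQ3] at h; simp at h; exact absurd h hQ
  · rw [hu, hv] at h; simp at h; exact absurd h hP
  · rw [hu, hv, one_smul, one_smul] at h
    exact absurd (eq_neg_of_add_eq_zero_left h) hPQ'
  · rw [hu, hv, two_zsmul_eq_neg Q hQ3, one_smul, ← sub_eq_add_neg] at h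
    exact absurd (sub_eq_zero.1 h) hPQ
  · rw [hu, hv, two_zsmul_eq_neg P hP3] at h; simp at h; exact absurd h hP
  · rw [hu, hv, two_zsmul_eq_neg P hP3, one_smul, neg_add_eq_sub] at h
    exact absurd (sub_eq_zero.1 h).symm hPQ
  · rw [hu, hv, two_zsmul_eq_neg P hP3, two_zsmul_eq_neg Q hQ3] at h
    exact absurd (neg_add_eq_zero.1 h) hPQ'

section Torsion

variable {K : Type*} [Field K] [DecidableEq K] {W : WeierstrassCurve.Affine K} [CharZero K]
  (hW : IsCurve W) (i : K) (hi : i ^ 2 = -1)

include hW hi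

/-- The structure of the two-torsion. -/
theorem two_torsion (s : K) (hs : s ^ 2 = -W.a₄) :
    ∃ P : W.Point, (2 : ℕ) • P = 0 ∧
      (∀ R : W.Point, (2 : ℕ) • R = 0 → ∃ u v : ℤ, R = u • P + v • J hW i hi P) ∧
      (∀ u v : ℤ, u • P + v • J hW i hi P = 0 → (2 : ℤ) ∣ u ∧ (2 : ℤ) ∣ v) := by
  have hs0 : s ≠ 0 := by
    rintro rfl
    exact hW.a₄ (by linear_combination hs)
  have hns : W.Nonsingular s 0 := by
    rw [hW.nonsingular_iff]
    linear_combination -s * hs
  have hns' : W.Nonsingular (-s) 0 := by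
    rw [hW.nonsingular_iff]
    linear_combination s * hs
  have hns0 : W.Nonsingular 0 0 := by
    rw [hW.nonsingular_iff]
    ring
  have hJ : J hW i hi (Point.some s 0 hns) = Point.some (-s) 0 hns' := by
    rw [J_some]
    simp
  have hss : s ≠ -s := ne_neg_self hs0
  have hsum : (Point.some s 0 hns : W.Point) + Point.some (-s) 0 hns' = Point.some 0 0 hns0 := by
    rw [Point.add_of_X_ne hss]
    simp only [Point.some.injEq]
    rw [hW.addX_eq, hW.addY_eq, slope_of_X_ne hss]
    simp
  have h2 : ∀ (x : K) (h : W.Nonsingular x 0), (2 : ℕ) • (Point.some x 0 h : W.Point) = 0 := by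
    intro x h
    rw [two_nsmul, Point.add_self_of_Y_eq]
    rw [hW.negY_eq, neg_zero]
  refine ⟨Point.some s 0 hns, h2 s hns, ?_, ?_⟩
  · intro R hR
    rcases R with _ | ⟨x, y, h⟩
    · exact ⟨0, 0, by simp; rfl⟩
    · have hy : y = 0 := by
        by_contra hy
        obtain ⟨h', he⟩ := two_smul_some hW h hy rfl
        rw [he] at hR
        exact Point.some_ne_zero _ hR
      subst hy
      have he := (hW.nonsingular_iff x 0).1 h
      have h1 : x * ((x - s) * (x + s)) = 0 := by
        linear_combination -he - x * hs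
      rcases mul_eq_zero.1 h1 with h2 | h2
      · subst h2
        exact ⟨1, 1, by rw [one_smul, one_smul, hJ, hsum]⟩
      rcases mul_eq_zero.1 h2 with h3 | h3
      · have : x = s := by linear_combination h3
        subst this
        exact ⟨1, 0, by rw [one_smul, zero_smul, add_zero]⟩
      · have : x = -s := by linear_combination h3
        subst this
        exact ⟨0, 1, by rw [one_smul, zero_smul, zero_add, hJ]⟩
  · intro u v huv
    rw [hJ] at huv
    refine ind_two (h2 s hns) (h2 _ hns') (Point.some_ne_zero _) (Point.some_ne_zero _) ?_ u v huv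
    rw [hsum]
    exact Point.some_ne_zero _

omit hi in
/-- A nonzero point killed by three satisfies the three-division polynomial. -/
theorem psi_three_eq_zero {x y : K} (h : W.Nonsingular x y)
    (h3 : (3 : ℕ) • (Point.some x y h : W.Point) = 0) :
    3 * x ^ 4 + 6 * W.a₄ * x ^ 2 - W.a₄ ^ 2 = 0 := by
  by_contra hψ
  by_cases hy : y = 0
  · subst hy
    have h2 : (2 : ℕ) • (Point.some x 0 h : W.Point) = 0 := by
      rw [two_nsmul, Point.add_self_of_Y_eq]
      rw [hW.negY_eq, neg_zero]
    rw [show (3 : ℕ) = 2 + 1 from rfl, succ_nsmul, h2, zero_add] at h3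
    exact Point.some_ne_zero _ h3
  · obtain ⟨x', y', h', he, -⟩ := three_smul_some hW h hy hψ
    rw [he] at h3
    exact Point.some_ne_zero _ h3

omit hi in
/-- Conversely, zeros of the three-division polynomial give points killed by three. -/
theorem three_smul_eq_zero {x y : K} (h : W.Nonsingular x y)
    (hψ : 3 * x ^ 4 + 6 * W.a₄ * x ^ 2 - W.a₄ ^ 2 = 0) :
    (3 : ℕ) • (Point.some x y h : W.Point) = 0 := by
  have he : y ^ 2 = x ^ 3 + W.a₄ * x := (hW.nonsingular_iff x y).1 h
  have hy : y ≠ 0 := by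
    rintro rfl
    have h1 : x * (x ^ 2 + W.a₄) = 0 := by linear_combination -he
    rcases mul_eq_zero.1 h1 with h2 | h2
    · subst h2
      have : W.a₄ ^ 2 = 0 := by linear_combination -hψ
      exact hW.a₄ (by simpa using this)
    · have : 4 * W.a₄ ^ 2 = 0 := by
        linear_combination (3 * x ^ 2 + 3 * W.a₄) * h2 - hψ
      have : W.a₄ ^ 2 = 0 := (mul_eq_zero.1 this).resolve_left (by norm_num)
      exact hW.a₄ (by simpa using this)
  obtain ⟨h', h2⟩ := two_smul_some hW h hy (ℓ := (3 * x ^ 2 + W.a₄) / (2 * y)) rfl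
  have hX : ((3 * x ^ 2 + W.a₄) / (2 * y)) ^ 2 - 2 * x = x := by
    field_simp
    linear_combination (-12 * x) * he - hψ
  have hn : (2 : ℕ) • (Point.some x y h : W.Point) = -Point.some x y h := by
    rw [h2, Point.neg_some]
    simp only [Point.some.injEq]
    refine ⟨hX, ?_⟩
    rw [hW.negY_eq]
    have : ((3 * x ^ 2 + W.a₄) / (2 * y)) ^ 2 - 3 * x = 0 := by linear_combination hX
    rw [this]
    ring
  rw [show (3 : ℕ) = 2 + 1 from rfl, succ_nsmul, hn, neg_add_cancel]

/-- The structure of the three-torsion. -/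
theorem three_torsion (s α : K) (hs : s ^ 2 = 3) (hα : α ^ 2 = W.a₄ * (2 * s - 3) / 3) (β : K)
    (hβ : β ^ 2 = α ^ 3 + W.a₄ * α) :
    ∃ h : W.Nonsingular α β, (3 : ℕ) • (Point.some α β h : W.Point) = 0 ∧
      (∀ R : W.Point, (3 : ℕ) • R = 0 →
        ∃ u v : ℤ, R = u • (Point.some α β h : W.Point) + v • J hW i hi (Point.some α β h)) ∧
      (∀ u v : ℤ, u • (Point.some α β h : W.Point) + v • J hW i hi (Point.some α β h) = 0 →
        (3 : ℤ) ∣ u ∧ (3 : ℤ) ∣ v) := by
  have hA0 := hW.a₄
  have hns : W.Nonsingular α β := (hW.nonsingular_iff _ _).2 hβ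
  have hψ : 3 * α ^ 4 + 6 * W.a₄ * α ^ 2 - W.a₄ ^ 2 = 0 := by
    have h4 : α ^ 4 = (α ^ 2) ^ 2 := by ring
    rw [h4, hα]
    linear_combination (4 / 3 * W.a₄ ^ 2) * hs
  have hα0 : α ≠ 0 := by
    rintro rfl
    have : W.a₄ ^ 2 = 0 := by linear_combination -hψ
    exact hA0 (by simpa using this)
  have h3P := three_smul_eq_zero hW hns hψ
  have hJ := J_some hW i hi hns
  have hns' : W.Nonsingular (-α) (i * β) := by
    rw [hW.nonsingular_iff]
    linear_combination (-1 : K) * hβ + β ^ 2 * hi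
  have h3JP : (3 : ℕ) • J hW i hi (Point.some α β hns) = 0 := by
    rw [← map_nsmul, h3P, map_zero]
  have hαα : α ≠ -α := ne_neg_self hα0
  refine ⟨hns, h3P, ?_, ?_⟩
  · intro R hR
    rcases R with _ | ⟨x, y, h⟩
    · exact ⟨0, 0, by simp; rfl⟩
    have hx := psi_three_eq_zero hW h hR
    -- the point `P + J P`
    obtain ⟨yp, hnsp, hsum⟩ : ∃ (yp : K) (hp : W.Nonsingular (-i * (α ^ 2 + W.a₄) / (2 * α)) yp),
        (Point.some α β hns : W.Point) + J hW i hi (Point.some α β hns) =
          Point.some (-i * (α ^ 2 + W.a₄) / (2 * α)) yp hp := by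
      rw [hJ, Point.add_of_X_ne hαα]
      have hX : W.addX α (-α) (W.slope α (-α) β (i * β)) = -i * (α ^ 2 + W.a₄) / (2 * α) := by
        rw [hW.addX_eq, slope_of_X_ne hαα]
        have : α - -α = 2 * α := by ring
        rw [this]
        field_simp
        linear_combination (β ^ 2) * hi + (-2 * i) * hβ
      have hnsp := nonsingular_add hns hns' (fun hxy => hαα hxy.1)
      rw [hX] at hnsp
      refine ⟨_, hnsp, ?_⟩
      simp only [Point.some.injEq]
      exact ⟨hX, trivial⟩
    set γ := -i * (α ^ 2 + W.a₄) / (2 * α) with hγ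
    have hγ2 : γ ^ 2 = -W.a₄ * (2 * s + 3) / 3 := by
      rw [hγ, div_pow, mul_pow, neg_pow, hi, mul_pow]
      have h2 : α ^ 2 + W.a₄ = 2 * s * W.a₄ / 3 := by rw [hα]; ring
      rw [h2, hα]
      have h23 : 2 * s - 3 ≠ 0 := by
        intro h0
        have : (4 : K) * 3 = 9 := by linear_combination (-4) * hs + (2 * s + 3) * h0
        norm_num at this
      field_simp
      linear_combination (3 : K) * hs
    have hfac : (x ^ 2 - α ^ 2) * (x ^ 2 - γ ^ 2) = 0 := by
      rw [hα, hγ2]
      linear_combination (1 / 3 : K) * hx + (-4 / 9 * W.a₄ ^ 2) * hs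
    rcases mul_eq_zero.1 hfac with h1 | h1
    · have h2 : (x - α) * (x + α) = 0 := by linear_combination h1
      rcases mul_eq_zero.1 h2 with h3 | h3
      · have : x = α := by linear_combination h3
        subst this
        rcases eq_or_eq_neg h hns with h4 | h4
        · exact ⟨1, 0, by rw [one_smul, zero_smul, add_zero, h4]⟩
        · exact ⟨-1, 0, by rw [neg_smul, one_smul, zero_smul, add_zero, h4]⟩
      · have : x = -α := by linear_combination h3
        subst this
        rcases eq_or_eq_neg h hns' with h4 | h4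
        · exact ⟨0, 1, by rw [one_smul, zero_smul, zero_add, h4, hJ]⟩
        · exact ⟨0, -1, by rw [neg_smul, one_smul, zero_smul, zero_add, h4, hJ]⟩
    · have h2 : (x - γ) * (x + γ) = 0 := by linear_combination h1
      rcases mul_eq_zero.1 h2 with h3 | h3
      · have : x = γ := by linear_combination h3
        subst this
        rcases eq_or_eq_neg h hnsp with h4 | h4
        · exact ⟨1, 1, by rw [one_smul, one_smul, h4, hsum]⟩
        · exact ⟨-1, -1, by rw [neg_smul, neg_smul, one_smul, one_smul, h4, ← hsum]; abel⟩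
      · have : x = -γ := by linear_combination h3
        subst this
        -- the point `J (P + J P) = J P - P`
        have hJJ : J hW i hi (Point.some γ yp hnsp) =
            -Point.some α β hns + J hW i hi (Point.some α β hns) := by
          rw [← hsum, map_add, J_J, add_comm]
        rw [J_some] at hJJ
        rcases eq_or_eq_neg h (by
          rw [hW.nonsingular_iff]
          have := (hW.nonsingular_iff _ _).1 hnsp
          linear_combination (-1 : K) * this + yp ^ 2 * hi : W.Nonsingular (-γ) (i * yp))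
          with h4 | h4
        · exact ⟨-1, 1, by rw [neg_smul, one_smul, one_smul, h4, hJJ]⟩
        · exact ⟨1, -1, by rw [neg_smul, one_smul, one_smul, h4, hJJ]; abel⟩
  · intro u v huv
    refine ind_three h3P h3JP (Point.some_ne_zero _) ?_ ?_ ?_ u v huv
    · rw [hJ]
      exact Point.some_ne_zero _
    · rw [hJ]
      intro h
      rw [Point.some.injEq] at h
      exact hαα h.1
    · rw [hJ, Point.neg_some]
      intro h
      rw [Point.some.injEq] at h
      exact hαα h.1

end Torsion

end Pool.Agent.Lib.P7a3e68
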