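import Pool.Agent.Lib.P7a3e68.Internal
import Pool.Agent.Lib.P7a3e68.Torsion
import Pool.Agent.Lib.P7a3e68.Linear
import Pool.Agent.Lib.P7a3e68.Descent
import Pool.Agent.Lib.P7a3e68.Galois

/-!
# The Galois representations of `y² = x³ + a x` at the primes two and three
-/

namespace Pool.Agent.Lib.P7a3e68

open scoped TensorProduct WeierstrassCurve.Affine
open WeierstrassCurve.Affine

section main

variable (a : ℚ) (ha : a ≠ 0) (Qb : Type*) [Field Qb] [DecidableEq Qb] [Algebra ℚ Qb]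

omit [DecidableEq Qb] in
include ha in
theorem isCurve [CharZero Qb] : IsCurve ((curve a).toAffine⁄Qb) where
  a₁ := map_zero _
  a₂ := map_zero _
  a₃ := map_zero _
  a₆ := map_zero _
  a₄ := by
    show algebraMap ℚ Qb a ≠ 0
    rwa [Ne, map_eq_zero]

/-- The Galois action on points. -/
noncomputable def act (σ : Qb ≃ₐ[ℚ] Qb) : Pts Qb (curve a) →+ Pts Qb (curve a) :=
  Point.map (W' := (curve a).toAffine) (σ : Qb →ₐ[ℚ] Qb)

theorem act_mul (σ τ : Qb ≃ₐ[ℚ] Qb) : act a Qb (σ * τ) = (act a Qb σ).comp (act a Qb τ) := by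
  ext P
  rcases P with _ | ⟨x, y, h⟩
  · rfl
  · rfl

theorem act_one : act a Qb 1 = AddMonoidHom.id _ := by
  ext P
  rcases P with _ | ⟨x, y, h⟩
  · rfl
  · rfl

theorem act_some (σ : Qb ≃ₐ[ℚ] Qb) {x y : Qb} (h : ((curve a).toAffine⁄Qb).Nonsingular x y) :
    ∃ h' : ((curve a).toAffine⁄Qb).Nonsingular (σ x) (σ y),
      act a Qb σ (Point.some x y h) = Point.some (σ x) (σ y) h' := ⟨_, rfl⟩

variable [IsAlgClosure ℚ Qb] [CharZero Qb] (i : Qb) (hi : i ^ 2 = -1)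

/-- Complex multiplication on the points. -/
noncomputable def JJ : Pts Qb (curve a) →+ Pts Qb (curve a) :=
  J (isCurve a ha Qb) i hi

theorem JJ_JJ (P : Pts Qb (curve a)) : JJ a ha Qb i hi (JJ a ha Qb i hi P) = -P :=
  J_J _ _ _ P

theorem act_JJ (σ : Qb ≃ₐ[ℚ] Qb) (P : Pts Qb (curve a)) :
    act a Qb σ (JJ a ha Qb i hi P) = (sign i hi σ : ℤ) • JJ a ha Qb i hi (act a Qb σ P) := by
  rcases P with _ | ⟨x, y, h⟩
  · show (0 : Pts Qb (curve a)) = (sign i hi σ : ℤ) • (0 : Pts Qb (curve a))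
    rw [smul_zero]
  · obtain ⟨h2, e2⟩ := act_some a Qb σ h
    have e3 := J_some (isCurve a ha Qb) i hi h
    have e4 := J_some (isCurve a ha Qb) i hi h2
    unfold JJ
    rw [e2, e4]
    rw [e3]
    obtain ⟨h5, e5⟩ := act_some a Qb σ (by
      rw [(isCurve a ha Qb).nonsingular_iff] at h ⊢
      linear_combination (-1 : Qb) * h + y ^ 2 * hi :
        ((curve a).toAffine⁄Qb).Nonsingular (-x) (i * y))
    rw [e5]
    rcases apply_i_cases i hi σ with h1 | h1
    · rw [(sign_eq_one_iff i hi σ).2 h1, Units.val_one, one_smul, Point.some.injEq, map_neg,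
        map_mul, h1]
      exact ⟨rfl, rfl⟩
    · rw [(sign_eq_neg_one_iff i hi σ).2 h1, Units.val_neg, Units.val_one, neg_smul, one_smul,
        Point.neg_some, Point.some.injEq, map_neg, map_mul, h1, (isCurve a ha Qb).negY_eq]
      exact ⟨rfl, by ring⟩

theorem isOpen_act (σ : Qb ≃ₐ[ℚ] Qb) (P : Pts Qb (curve a)) :
    IsOpen {σ' : Qb ≃ₐ[ℚ] Qb | act a Qb σ' P = act a Qb σ P} := by
  rcases P with _ | ⟨x, y, h⟩
  · convert isOpen_univ
    ext σ'
    simp only [Set.mem_univ, iff_true]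
    rfl
  · convert (isOpen_apply_eq x σ).inter (isOpen_apply_eq y σ)
    ext σ'
    obtain ⟨h1, e1⟩ := act_some a Qb σ h
    obtain ⟨h2, e2⟩ := act_some a Qb σ' h
    rw [Set.mem_ofPred_eq, e1, e2, Point.some.injEq]
    rfl

/-- The endomorphism of the rational Tate module given by complex multiplication. -/
noncomputable def VJ (l : ℕ) [Fact l.Prime] :
    Module.End ℚ_[l] (RTM l (Pts Qb (curve a))) :=
  (TateModule.map (l := l) (JJ a ha Qb i hi)).baseChange ℚ_[l]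

theorem VJ_mul_VJ (l : ℕ) [Fact l.Prime] : VJ a ha Qb i hi l * VJ a ha Qb i hi l = -1 := by
  have h1 : TateModule.map (l := l) (JJ a ha Qb i hi) ∘ₗ TateModule.map (JJ a ha Qb i hi) =
      -LinearMap.id := by
    ext1 x
    exact map_J_J (JJ a ha Qb i hi) (JJ_JJ a ha Qb i hi) x
  unfold VJ
  rw [Module.End.mul_eq_comp, ← LinearMap.baseChange_comp, h1, LinearMap.baseChange_neg,
    LinearMap.baseChange_id]
  rfl

theorem galRep_eq (l : ℕ) [Fact l.Prime] (σ : Qb ≃ₐ[ℚ] Qb) :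
    grep Qb (curve a) l σ = (tact (l := l) (act a Qb) σ).baseChange ℚ_[l] := rfl

omit [IsAlgClosure ℚ Qb] [CharZero Qb] in
theorem galRep_mul (l : ℕ) [Fact l.Prime] (σ τ : Qb ≃ₐ[ℚ] Qb) :
    grep Qb (curve a) l (σ * τ) = grep Qb (curve a) l σ * grep Qb (curve a) l τ := by
  show (tact (l := l) (act a Qb) (σ * τ)).baseChange ℚ_[l] =
    (tact (l := l) (act a Qb) σ).baseChange ℚ_[l] * (tact (l := l) (act a Qb) τ).baseChange ℚ_[l]
  rw [tact_mul (act a Qb) (act_mul a Qb), LinearMap.baseChange_comp]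
  rfl

omit [IsAlgClosure ℚ Qb] [CharZero Qb] in
theorem galRep_one (l : ℕ) [Fact l.Prime] :
    grep Qb (curve a) l (1 : Qb ≃ₐ[ℚ] Qb) = 1 := by
  show (tact (l := l) (act a Qb) 1).baseChange ℚ_[l] = 1
  rw [tact_one (act a Qb) (act_one a Qb), LinearMap.baseChange_id]
  rfl

omit [IsAlgClosure ℚ Qb] [CharZero Qb] in
theorem galRep_mul_inv (l : ℕ) [Fact l.Prime] (σ : Qb ≃ₐ[ℚ] Qb) :
    grep Qb (curve a) l σ * grep Qb (curve a) l σ⁻¹ = 1 := by
  rw [← galRep_mul, mul_inv_cancel, galRep_one]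

omit [IsAlgClosure ℚ Qb] [CharZero Qb] in
theorem galRep_inv_mul (l : ℕ) [Fact l.Prime] (σ : Qb ≃ₐ[ℚ] Qb) :
    grep Qb (curve a) l σ⁻¹ * grep Qb (curve a) l σ = 1 := by
  rw [← galRep_mul, inv_mul_cancel, galRep_one]

theorem galRep_VJ (l : ℕ) [Fact l.Prime] (σ : Qb ≃ₐ[ℚ] Qb) :
    grep Qb (curve a) l σ * VJ a ha Qb i hi l =
      (sign i hi σ : ℤ) • (VJ a ha Qb i hi l * grep Qb (curve a) l σ) := by
  have h1 : tact (l := l) (act a Qb) σ ∘ₗ TateModule.map (JJ a ha Qb i hi) =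
      (((sign i hi σ : ℤ) : ℤ_[l])) •
        (TateModule.map (JJ a ha Qb i hi) ∘ₗ tact (l := l) (act a Qb) σ) := by
    ext1 x
    exact tact_J (act a Qb) (JJ a ha Qb i hi) (sign i hi) (act_JJ a ha Qb i hi) σ x
  have h2 := congrArg (LinearMap.baseChange ℚ_[l]) h1
  rw [LinearMap.baseChange_comp, LinearMap.baseChange_smul, LinearMap.baseChange_comp] at h2
  rw [← Int.cast_smul_eq_zsmul ℤ_[l]]
  exact h2

include ha hi in
/-- A basis `(e, J e)` of the Tate module at the prime two. -/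
theorem exists_basis_two : ∃ e : TateModule 2 (Pts Qb (curve a)),
    (∀ R : Pts Qb (curve a), 2 • R = 0 →
      ∃ u v : ℤ, R = u • e.1 1 + v • JJ a ha Qb i hi (e.1 1)) ∧
    (∀ u v : ℤ, u • e.1 1 + v • JJ a ha Qb i hi (e.1 1) = 0 →
      ((2 : ℕ) : ℤ) ∣ u ∧ ((2 : ℕ) : ℤ) ∣ v) := by
  have : IsAlgClosed Qb := IsAlgClosure.isAlgClosed ℚ
  obtain ⟨s, hs⟩ := IsAlgClosed.exists_pow_nat_eq (-((curve a).toAffine⁄Qb).a₄) (n := 2)
    (by norm_num)
  obtain ⟨P, h1, h2, h3⟩ := two_torsion (isCurve a ha Qb) i hi s hs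
  obtain ⟨e, he⟩ := TateModule.exists_lift P h1 (two_divisible (isCurve a ha Qb))
  subst he
  exact ⟨e, h2, h3⟩

include ha hi in
/-- A basis `(e, J e)` of the Tate module at the prime three, and its behaviour under an
automorphism which fixes `i` but not `√3`. -/
theorem exists_basis_three : ∃ e : TateModule 3 (Pts Qb (curve a)),
    (∀ R : Pts Qb (curve a), 3 • R = 0 →
      ∃ u v : ℤ, R = u • e.1 1 + v • JJ a ha Qb i hi (e.1 1)) ∧
    (∀ u v : ℤ, u • e.1 1 + v • JJ a ha Qb i hi (e.1 1) = 0 →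
      ((3 : ℕ) : ℤ) ∣ u ∧ ((3 : ℕ) : ℤ) ∣ v) ∧
    ∃ τ : Qb ≃ₐ[ℚ] Qb, τ i = i ∧
      ∀ u v : ℤ, act a Qb τ (e.1 1) = u • e.1 1 + v • JJ a ha Qb i hi (e.1 1) →
        ¬ (3 : ℤ) ∣ u ∧ ¬ (3 : ℤ) ∣ v := by
  have : IsAlgClosed Qb := IsAlgClosure.isAlgClosed ℚ
  have hA : ((curve a).toAffine⁄Qb).a₄ = algebraMap ℚ Qb a := rfl
  have hA0 : ((curve a).toAffine⁄Qb).a₄ ≠ 0 := (isCurve a ha Qb).a₄
  obtain ⟨s, hs⟩ := IsAlgClosed.exists_pow_nat_eq (3 : Qb) (n := 2) (by norm_num)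
  obtain ⟨α, hα⟩ := IsAlgClosed.exists_pow_nat_eq
    (((curve a).toAffine⁄Qb).a₄ * (2 * s - 3) / 3) (n := 2) (by norm_num)
  obtain ⟨β, hβ⟩ := IsAlgClosed.exists_pow_nat_eq
    (α ^ 3 + ((curve a).toAffine⁄Qb).a₄ * α) (n := 2) (by norm_num)
  obtain ⟨h, h1, h2, h3⟩ := three_torsion (isCurve a ha Qb) i hi s α hs hα β hβ
  obtain ⟨e, he⟩ := TateModule.exists_lift _ h1 (three_divisible (isCurve a ha Qb))
  obtain ⟨τ, hτi, hτs⟩ := exists_tau i s hi hs
  rw [← he] at h2 h3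
  refine ⟨e, h2, h3, τ, hτi, ?_⟩
  -- `τ` changes `α²`
  have hτα : (τ α) ^ 2 ≠ α ^ 2 := by
    rw [← map_pow, hα, hA]
    rw [map_div₀, map_mul, map_sub, map_mul, hτs, map_ofNat, map_ofNat, AlgEquiv.commutes]
    intro h0
    have hs0 : s ≠ 0 := by
      rintro rfl
      norm_num at hs
    have h4 : (4 * algebraMap ℚ Qb a) * s = 0 := by
      field_simp at h0
      linear_combination -h0
    rcases mul_eq_zero.1 h4 with h5 | h5
    · exact hA0 ((mul_eq_zero.1 h5).resolve_left (by norm_num))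
    · exact hs0 h5
  obtain ⟨hτns, hact⟩ := act_some a Qb τ h
  rw [← he] at hact
  have hJe : JJ a ha Qb i hi (e.1 1) = J (isCurve a ha Qb) i hi (Point.some α β h) := by
    rw [he]
    rfl
  have h3e : (3 : ℕ) • e.1 1 = 0 := by rw [he]; exact h1
  have h3Je : (3 : ℕ) • JJ a ha Qb i hi (e.1 1) = 0 := by
    rw [← map_nsmul, h3e, map_zero]
  intro u v huv
  rw [zsmul_mod_three _ h3e u, zsmul_mod_three _ h3Je v] at huv
  have neg_case : ∀ (x y : Qb) (hxy : ((curve a).toAffine⁄Qb).Nonsingular x y)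
      (x' y' : Qb) (hxy' : ((curve a).toAffine⁄Qb).Nonsingular x' y'),
      (Point.some x y hxy = Point.some x' y' hxy' ∨
        Point.some x y hxy = -Point.some x' y' hxy') → x = x' :=
    fun x y hxy x' y' hxy' hor => Point.X_eq_iff.2 hor
  constructor
  · intro hu
    have hu0 : u % 3 = 0 := Int.emod_eq_zero_of_dvd hu
    have h3J' := h3Je
    rw [hJe, J_some] at h3J'
    rw [hu0, zero_smul, zero_add, hact, hJe, J_some] at huv
    have hx : τ α = -α := by
      rcases emod_three_cases v with hv | hv | hv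
      · rw [hv, zero_smul] at huv
        exact absurd huv (Point.some_ne_zero _)
      · rw [hv, one_smul] at huv
        exact neg_case _ _ _ _ _ _ (Or.inl huv)
      · rw [hv, two_zsmul_eq_neg _ h3J'] at huv
        exact neg_case _ _ _ _ _ _ (Or.inr huv)
    apply hτα
    rw [hx]
    ring
  · intro hv
    have hv0 : v % 3 = 0 := Int.emod_eq_zero_of_dvd hv
    rw [hv0, zero_smul, add_zero, hact, he] at huv
    have hx : τ α = α := by
      rcases emod_three_cases u with hu | hu | hu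
      · rw [hu, zero_smul] at huv
        exact absurd huv (Point.some_ne_zero _)
      · rw [hu, one_smul] at huv
        exact neg_case _ _ _ _ _ _ (Or.inl huv)
      · rw [hu, two_zsmul_eq_neg _ h1] at huv
        exact neg_case _ _ _ _ _ _ (Or.inr huv)
    exact hτα (by rw [hx])

end main

end Pool.Agent.Lib.P7a3e68
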