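import Mathlib

/-!
# Tate modules of abelian groups

For a prime `l` and an abelian group `M`, the Tate module `T_l M` is the inverse limit of the
groups `M[l^n]` along multiplication by `l`; it is a module over the `l`-adic integers.
-/

namespace Pool.Agent.Lib.P7a3e68

open scoped TensorProduct

/-- The `l`-adic Tate module `T_l M = lim M[l^n]` of an abelian group `M`: the sequences
`x 0, x 1, x 2, …` in `M` with `x 0 = 0` and `l • x (n + 1) = x n` (so `x n` is killed by
`l ^ n`). -/
structure TateModule (l : ℕ) (M : Type*) [AddCommGroup M] where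
  /-- The sequence. -/
  seq : ℕ → M
  seq_zero : seq 0 = 0
  smul_seq_succ : ∀ n, l • seq (n + 1) = seq n

namespace TateModule

variable {l : ℕ} {M : Type*} [AddCommGroup M]

theorem add_prop {f g : ℕ → M} (hf : ∀ n, l • f (n + 1) = f n) (hg : ∀ n, l • g (n + 1) = g n)
    (n : ℕ) : l • (f (n + 1) + g (n + 1)) = f n + g n := by
  rw [smul_add, hf n, hg n]

theorem neg_prop {f : ℕ → M} (hf : ∀ n, l • f (n + 1) = f n)
    (n : ℕ) : l • (-f (n + 1)) = -f n := by
  rw [smul_neg, hf n]

theorem map_prop {N : Type*} [AddCommGroup N] (φ : M →+ N) {f : ℕ → M}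
    (hf : ∀ n, l • f (n + 1) = f n) (n : ℕ) : l • (φ (f (n + 1))) = φ (f n) := by
  rw [← map_nsmul, hf n]

theorem map_zero_prop {N : Type*} [AddCommGroup N] (φ : M →+ N) {f : ℕ → M}
    (hf : f 0 = 0) : φ (f 0) = 0 := by
  rw [hf, map_zero]

theorem add_zero_prop {f g : ℕ → M} (hf : f 0 = 0) (hg : g 0 = 0) : f 0 + g 0 = 0 := by
  rw [hf, hg, add_zero]

theorem neg_zero_prop {f : ℕ → M} (hf : f 0 = 0) : -f 0 = 0 := by
  rw [hf, neg_zero]

instance instZero : Zero (TateModule l M) := ⟨⟨fun _ => 0, rfl, fun _ => smul_zero _⟩⟩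

instance instAdd : Add (TateModule l M) :=
  ⟨fun x y => ⟨fun n => x.seq n + y.seq n, add_zero_prop x.seq_zero y.seq_zero,
    add_prop x.smul_seq_succ y.smul_seq_succ⟩⟩

instance instNeg : Neg (TateModule l M) :=
  ⟨fun x => ⟨fun n => -x.seq n, neg_zero_prop x.seq_zero, neg_prop x.smul_seq_succ⟩⟩

theorem ext' {x y : TateModule l M} (h : ∀ n, x.1 n = y.1 n) : x = y := by
  cases x
  cases y
  congr
  exact funext h

protected theorem add_assoc (x y z : TateModule l M) : x + y + z = x + (y + z) :=
  ext' fun _ => add_assoc _ _ _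

protected theorem add_comm (x y : TateModule l M) : x + y = y + x := ext' fun _ => add_comm _ _

protected theorem zero_add (x : TateModule l M) : 0 + x = x := ext' fun _ => zero_add _

protected theorem neg_add_cancel (x : TateModule l M) : -x + x = 0 :=
  ext' fun _ => neg_add_cancel _

/-- The group structure on the Tate module is termwise addition. -/
instance instAddCommGroup : AddCommGroup (TateModule l M) :=
  { AddGroup.ofLeftAxioms TateModule.add_assoc TateModule.zero_add
      TateModule.neg_add_cancel with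
    add_comm := TateModule.add_comm }

theorem zero_apply (x : TateModule l M) : x.1 0 = 0 := x.2

theorem smul_succ (x : TateModule l M) (n : ℕ) : l • x.1 (n + 1) = x.1 n := x.3 n

theorem add_apply (x y : TateModule l M) (n : ℕ) : (x + y).1 n = x.1 n + y.1 n := rfl

theorem neg_apply (x : TateModule l M) (n : ℕ) : (-x).1 n = -x.1 n := rfl

theorem coe_zero_apply (n : ℕ) : (0 : TateModule l M).1 n = 0 := rfl

theorem sub_apply (x y : TateModule l M) (n : ℕ) : (x - y).1 n = x.1 n - y.1 n := by
  rw [sub_eq_add_neg, add_apply, neg_apply, sub_eq_add_neg]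

theorem pow_smul_add (x : TateModule l M) (n k : ℕ) : l ^ k • x.1 (n + k) = x.1 n := by
  induction k with
  | zero => simp
  | succ k ih => rw [pow_succ, mul_smul, ← add_assoc, smul_succ, ih]

theorem pow_smul_self (x : TateModule l M) (n : ℕ) : l ^ n • x.1 n = 0 := by
  have := pow_smul_add x 0 n
  rwa [zero_add, zero_apply] at this

theorem zsmul_congr (x : TateModule l M) (n : ℕ) {k k' : ℤ} (h : (l ^ n : ℤ) ∣ k - k') :
    k • x.1 n = k' • x.1 n := by
  obtain ⟨c, hc⟩ := h
  have h1 : k = k' + c * (l ^ n : ℤ) := by linarith [mul_comm (l ^ n : ℤ) c]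
  have h2 : (l ^ n : ℤ) • x.1 n = 0 := by
    have := pow_smul_self x n
    exact_mod_cast this
  rw [h1, add_smul, mul_smul, h2, smul_zero, add_zero]

theorem nsmul_congr (x : TateModule l M) (n : ℕ) {k k' : ℕ} (h : (l ^ n : ℤ) ∣ (k : ℤ) - k') :
    k • x.1 n = k' • x.1 n := by
  have := zsmul_congr x n h
  simpa using this

variable [hl : Fact l.Prime]

theorem appr_smul_prop (a : ℤ_[l]) (x : TateModule l M) (n : ℕ) :
    l • (a.appr (n + 1) • x.seq (n + 1)) = a.appr n • x.seq n := by
  rw [smul_comm, smul_succ]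
  refine nsmul_congr x n ?_
  have h1 := PadicInt.dvd_appr_sub_appr a n (n + 1) (Nat.le_succ n)
  have h2 : a.appr n ≤ a.appr (n + 1) := PadicInt.appr_mono a (Nat.le_succ n)
  have h3 : ((a.appr (n + 1) - a.appr n : ℕ) : ℤ) = (a.appr (n + 1) : ℤ) - a.appr n := by
    push_cast [h2]
    ring
  rw [← h3]
  exact_mod_cast h1

theorem appr_smul_zero_prop (a : ℤ_[l]) (x : TateModule l M) : a.appr 0 • x.seq 0 = 0 := by
  rw [zero_apply, smul_zero]

/-- Scalar multiplication by `l`-adic integers: on the `n`-th term, `a` acts as the integer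
`a.appr n` congruent to `a` modulo `l ^ n`. -/
noncomputable instance instSMul : SMul ℤ_[l] (TateModule l M) where
  smul a x := ⟨fun n => a.appr n • x.seq n, appr_smul_zero_prop a x, appr_smul_prop a x⟩

theorem smul_apply_def (a : ℤ_[l]) (x : TateModule l M) (n : ℕ) :
    (a • x).1 n = a.appr n • x.1 n := rfl

/-- The `n`-th term of `a • x` is `k • x n` for any integer `k` congruent to `a` modulo
`l ^ n`. -/
theorem smul_apply (a : ℤ_[l]) (x : TateModule l M) (n : ℕ) (k : ℤ)
    (h : ((l : ℤ_[l]) ^ n) ∣ a - k) : (a • x).1 n = k • x.1 n := by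
  rw [smul_apply_def, ← natCast_zsmul]
  refine zsmul_congr x n ?_
  have h1 : ((l : ℤ_[l]) ^ n) ∣ a - a.appr n :=
    Ideal.mem_span_singleton.1 (PadicInt.appr_spec n a)
  have h2 : ((l : ℤ_[l]) ^ n) ∣ (((a.appr n : ℤ) - k : ℤ) : ℤ_[l]) := by
    have := dvd_sub h h1
    push_cast
    convert this using 1
    ring
  exact (PadicInt.pow_p_dvd_int_iff n _).1 h2

theorem exists_int (a : ℤ_[l]) (n : ℕ) : ∃ k : ℤ, ((l : ℤ_[l]) ^ n) ∣ a - k :=
  ⟨a.appr n, by
    have := Ideal.mem_span_singleton.1 (PadicInt.appr_spec n a)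
    push_cast
    exact this⟩

protected theorem one_smul (x : TateModule l M) : (1 : ℤ_[l]) • x = x := by
  refine ext' fun n => ?_
  rw [smul_apply 1 x n 1 (by simp), one_smul]

protected theorem mul_smul (a b : ℤ_[l]) (x : TateModule l M) : (a * b) • x = a • b • x := by
  refine ext' fun n => ?_
  obtain ⟨k, hk⟩ := exists_int a n
  obtain ⟨m, hm⟩ := exists_int b n
  rw [smul_apply (a * b) x n (k * m), smul_apply a _ n k hk, smul_apply b x n m hm, mul_smul]
  obtain ⟨c, hc⟩ := hk
  obtain ⟨d, hd⟩ := hm
  refine ⟨c * b + k * d, ?_⟩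
  have h1 : a = k + (l : ℤ_[l]) ^ n * c := by rw [← hc]; ring
  have h2 : b = m + (l : ℤ_[l]) ^ n * d := by rw [← hd]; ring
  push_cast
  linear_combination (b : ℤ_[l]) * hc + (k : ℤ_[l]) * hd

protected theorem smul_zero (a : ℤ_[l]) : a • (0 : TateModule l M) = 0 := by
  refine ext' fun n => ?_
  rw [smul_apply_def, coe_zero_apply, smul_zero]

protected theorem smul_add (a : ℤ_[l]) (x y : TateModule l M) :
    a • (x + y) = a • x + a • y := by
  refine ext' fun n => ?_
  rw [smul_apply_def, add_apply, add_apply, smul_add, smul_apply_def, smul_apply_def]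

protected theorem add_smul (a b : ℤ_[l]) (x : TateModule l M) :
    (a + b) • x = a • x + b • x := by
  refine ext' fun n => ?_
  obtain ⟨k, hk⟩ := exists_int a n
  obtain ⟨m, hm⟩ := exists_int b n
  have h3 : ((l : ℤ_[l]) ^ n) ∣ a + b - ((k + m : ℤ) : ℤ_[l]) := by
    have := dvd_add hk hm
    push_cast
    convert this using 1
    ring
  rw [add_apply, smul_apply (a + b) x n (k + m) h3, smul_apply a x n k hk, smul_apply b x n m hm,
    add_smul]

protected theorem zero_smul (x : TateModule l M) : (0 : ℤ_[l]) • x = 0 := by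
  refine ext' fun n => ?_
  rw [smul_apply 0 x n 0 (by simp), zero_smul]
  rfl

/-- The Tate module is a module over the `l`-adic integers. -/
noncomputable instance instModule : Module ℤ_[l] (TateModule l M) where
  one_smul := TateModule.one_smul
  mul_smul := TateModule.mul_smul
  smul_zero := TateModule.smul_zero
  smul_add := TateModule.smul_add
  add_smul := TateModule.add_smul
  zero_smul := TateModule.zero_smul

theorem intCast_smul_apply (k : ℤ) (x : TateModule l M) (n : ℕ) :
    ((k : ℤ_[l]) • x).1 n = k • x.1 n := smul_apply _ x n k (by simp)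

theorem natCast_smul_apply (k : ℕ) (x : TateModule l M) (n : ℕ) :
    ((k : ℤ_[l]) • x).1 n = k • x.1 n := by
  have := intCast_smul_apply (k : ℤ) x n
  simpa using this

/-- Functoriality of the Tate module, as a map. -/
def mapFun {N : Type*} [AddCommGroup N] (f : M →+ N) (x : TateModule l M) : TateModule l N :=
  ⟨fun n => f (x.seq n), map_zero_prop f x.seq_zero, map_prop f x.smul_seq_succ⟩

omit hl in
theorem mapFun_add {N : Type*} [AddCommGroup N] (f : M →+ N) (x y : TateModule l M) :
    mapFun f (x + y) = mapFun f x + mapFun f y :=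
  ext' fun _ => f.map_add _ _

theorem mapFun_smul {N : Type*} [AddCommGroup N] (f : M →+ N) (a : ℤ_[l]) (x : TateModule l M) :
    mapFun f (a • x) = (RingHom.id ℤ_[l]) a • mapFun f x :=
  ext' fun _ => map_nsmul f _ _

/-- Functoriality of the Tate module: a homomorphism of groups acts termwise. -/
noncomputable def map {N : Type*} [AddCommGroup N] (f : M →+ N) :
    TateModule l M →ₗ[ℤ_[l]] TateModule l N where
  toFun := mapFun f
  map_add' := mapFun_add f
  map_smul' := mapFun_smul f

theorem map_apply {N : Type*} [AddCommGroup N] (f : M →+ N) (x : TateModule l M) (n : ℕ) :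
    (map f x).1 n = f (x.1 n) := rfl

/-- An element with vanishing `n`-th term is divisible by `l ^ n`. -/
theorem exists_pow_smul_eq (x : TateModule l M) (n : ℕ) (h : x.1 n = 0) :
    ∃ y : TateModule l M, x = (l : ℤ_[l]) ^ n • y := by
  refine ⟨⟨fun m => x.1 (m + n), ?_, fun m => ?_⟩, ?_⟩
  · simpa using h
  · have : m + 1 + n = (m + n) + 1 := by ring
    show l • x.1 (m + 1 + n) = x.1 (m + n)
    rw [this, smul_succ]
  · refine ext' fun m => ?_
    have h1 := natCast_smul_apply (l := l) (M := M) (l ^ n)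
      ⟨fun m => x.1 (m + n), by simpa using h, fun m => by
        have : m + 1 + n = (m + n) + 1 := by ring
        show l • x.1 (m + 1 + n) = x.1 (m + n)
        rw [this, smul_succ]⟩ m
    push_cast at h1
    rw [h1]
    show x.1 m = l ^ n • x.1 (m + n)
    rw [pow_smul_add]

theorem pow_smul_apply (x : TateModule l M) (n m : ℕ) (hm : m ≤ n) :
    ((l : ℤ_[l]) ^ n • x).1 m = 0 := by
  have h1 := natCast_smul_apply (l := l) (M := M) (l ^ n) x m
  push_cast at h1
  rw [h1]
  obtain ⟨k, rfl⟩ := Nat.exists_eq_add_of_le hm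
  rw [pow_add, mul_comm, mul_smul, pow_smul_self, smul_zero]

/-- The Tate module is torsion-free. -/
theorem smul_l_injective (x : TateModule l M) (n : ℕ) (h : (l : ℤ_[l]) ^ n • x = 0) : x = 0 := by
  refine ext' fun m => ?_
  have h1 := natCast_smul_apply (l := l) (M := M) (l ^ n) x (m + n)
  push_cast at h1
  rw [h, pow_smul_add] at h1
  exact h1.symm

end TateModule

end Pool.Agent.Lib.P7a3e68
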