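import Pool.Agent.Lib.P7a3e68.Tate

/-!
# Bases of Tate modules of divisible groups with an extra endomorphism
-/

namespace Pool.Agent.Lib.P7a3e68

namespace TateModule

variable {l : ℕ} {M : Type*} [AddCommGroup M] [hl : Fact l.Prime]

/-- A compatible sequence of `l`-power torsion points above a given `l`-torsion point. -/
theorem exists_lift (P : M) (hP : l • P = 0) (hdiv : ∀ R : M, ∃ S : M, l • S = R) :
    ∃ e : TateModule l M, e.1 1 = P := by
  choose d hd using hdiv
  let f : ℕ → M := fun n => Nat.rec P (fun _ x => d x) n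
  refine ⟨⟨fun n => Nat.casesOn n 0 f, rfl, ?_⟩, rfl⟩
  intro n
  cases n with
  | zero => exact hP
  | succ n => exact hd (f n)

/-- Constructing an `l`-adic integer from its approximations. -/
theorem exists_padicInt (f : ℕ → ℤ) (hf : ∀ i, (l : ℤ) ^ i ∣ f (i + 1) - f i) :
    ∃ a : ℤ_[l], ∀ n, ((l : ℤ_[l]) ^ n) ∣ a - f n := by
  refine ⟨PadicInt.ofIntSeq _ (PadicInt.isCauSeq_padicNorm_of_pow_dvd_sub f l hf), fun n => ?_⟩
  have h := PadicInt.toZModPow_ofIntSeq_of_pow_dvd_sub f l hf n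
  rw [← Ideal.mem_span_singleton, ← PadicInt.ker_toZModPow, RingHom.mem_ker, map_sub, h,
    map_intCast, sub_self]

theorem eq_zero_of_forall_pow_dvd (a : ℤ_[l]) (h : ∀ n : ℕ, ((l : ℤ_[l]) ^ n) ∣ a) : a = 0 := by
  rw [← PadicInt.ext_of_toZModPow]
  intro n
  rw [map_zero, ← RingHom.mem_ker, PadicInt.ker_toZModPow, Ideal.mem_span_singleton]
  exact h n

section basis

variable (J : M →+ M) (e : TateModule l M)
  (hspan : ∀ R : M, l • R = 0 → ∃ u v : ℤ, R = u • e.1 1 + v • J (e.1 1))
  (hind : ∀ u v : ℤ, u • e.1 1 + v • J (e.1 1) = 0 → (l : ℤ) ∣ u ∧ (l : ℤ) ∣ v)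

include hspan in
theorem exists_step (x : TateModule l M) : ∃ (u v : ℤ) (y : TateModule l M),
    x = (u : ℤ_[l]) • e + (v : ℤ_[l]) • map J e + (l : ℤ_[l]) • y := by
  have h1 : l • x.1 1 = 0 := by
    have := pow_smul_self x 1
    simpa using this
  obtain ⟨u, v, huv⟩ := hspan _ h1
  have h2 : (x - ((u : ℤ_[l]) • e + (v : ℤ_[l]) • map J e)).1 1 = 0 := by
    rw [sub_apply, add_apply, intCast_smul_apply, intCast_smul_apply, map_apply, ← huv, sub_self]
  obtain ⟨y, hy⟩ := exists_pow_smul_eq _ 1 h2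
  refine ⟨u, v, y, ?_⟩
  rw [pow_one] at hy
  rw [← hy]
  abel

include hspan in
theorem exists_coords (x : TateModule l M) : ∃ a b : ℤ_[l], x = a • e + b • map J e := by
  classical
  choose u v y hy using exists_step J e hspan
  -- the sequence of successive quotients
  let q : ℕ → TateModule l M := fun n => Nat.rec x (fun _ z => y z) n
  let A : ℕ → ℤ := fun n => ∑ i ∈ Finset.range n, (l : ℤ) ^ i * u (q i)
  let B : ℕ → ℤ := fun n => ∑ i ∈ Finset.range n, (l : ℤ) ^ i * v (q i)
  have hA : ∀ i, (l : ℤ) ^ i ∣ A (i + 1) - A i := fun i => by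
    simp only [A, Finset.sum_range_succ, add_sub_cancel_left]
    exact dvd_mul_right _ _
  have hB : ∀ i, (l : ℤ) ^ i ∣ B (i + 1) - B i := fun i => by
    simp only [B, Finset.sum_range_succ, add_sub_cancel_left]
    exact dvd_mul_right _ _
  have key : ∀ n, x = (A n : ℤ_[l]) • e + (B n : ℤ_[l]) • map J e + (l : ℤ_[l]) ^ n • q n := by
    intro n
    induction n with
    | zero => simp [A, B, q]
    | succ n ih =>
      have h1 := hy (q n)
      have h2 : q (n + 1) = y (q n) := rfl
      have h3 : (A (n + 1) : ℤ_[l]) = A n + (l : ℤ_[l]) ^ n * u (q n) := by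
        simp only [A, Finset.sum_range_succ]
        push_cast
        rfl
      have h4 : (B (n + 1) : ℤ_[l]) = B n + (l : ℤ_[l]) ^ n * v (q n) := by
        simp only [B, Finset.sum_range_succ]
        push_cast
        rfl
      have h5 : (l : ℤ_[l]) ^ n • q n = ((l : ℤ_[l]) ^ n * u (q n)) • e +
          ((l : ℤ_[l]) ^ n * v (q n)) • map J e + (l : ℤ_[l]) ^ (n + 1) • y (q n) := by
        conv_lhs => rw [h1]
        rw [smul_add, smul_add, smul_smul, smul_smul, smul_smul, pow_succ]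
      rw [h2, h3, h4, add_smul, add_smul]
      conv_lhs => rw [ih, h5]
      abel
  obtain ⟨a, ha⟩ := exists_padicInt A hA
  obtain ⟨b, hb⟩ := exists_padicInt B hB
  refine ⟨a, b, ext' fun n => ?_⟩
  obtain ⟨c, hc⟩ := ha n
  obtain ⟨d, hd⟩ := hb n
  have h1 : x - (a • e + b • map J e) =
      (l : ℤ_[l]) ^ n • (q n - c • e - d • map J e) := by
    have ha' : a = A n + (l : ℤ_[l]) ^ n * c := by rw [← hc]; ring
    have hb' : b = B n + (l : ℤ_[l]) ^ n * d := by rw [← hd]; ring
    conv_lhs => rw [key n, ha', hb']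
    rw [add_smul, add_smul, smul_sub, smul_sub, smul_smul, smul_smul]
    abel
  have h2 := pow_smul_apply (q n - c • e - d • map J e) n n le_rfl
  rw [← h1, sub_apply] at h2
  exact sub_eq_zero.1 h2

include hind in
theorem dvd_of_apply_eq_zero (a b : ℤ_[l]) (h : (a • e + b • map J e).1 1 = 0) :
    (l : ℤ_[l]) ∣ a ∧ (l : ℤ_[l]) ∣ b := by
  obtain ⟨k, hk⟩ := exists_int a 1
  obtain ⟨m, hm⟩ := exists_int b 1
  rw [add_apply, smul_apply a e 1 k hk, smul_apply b _ 1 m hm, map_apply] at h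
  obtain ⟨h1, h2⟩ := hind k m h
  have h1' : (l : ℤ_[l]) ∣ (k : ℤ_[l]) := by
    have := map_dvd (Int.castRingHom ℤ_[l]) h1
    simpa using this
  have h2' : (l : ℤ_[l]) ∣ (m : ℤ_[l]) := by
    have := map_dvd (Int.castRingHom ℤ_[l]) h2
    simpa using this
  rw [pow_one] at hk hm
  exact ⟨(dvd_iff_dvd_of_dvd_sub hk).2 h1', (dvd_iff_dvd_of_dvd_sub hm).2 h2'⟩

include hind in
theorem pow_dvd_of_smul_eq (n : ℕ) (a b : ℤ_[l]) (z : TateModule l M)
    (h : a • e + b • map J e = (l : ℤ_[l]) ^ n • z) :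
    (l : ℤ_[l]) ^ n ∣ a ∧ (l : ℤ_[l]) ^ n ∣ b := by
  induction n generalizing a b z with
  | zero => simp
  | succ n ih =>
    have h1 : (a • e + b • map J e).1 1 = 0 := by
      rw [h]
      exact pow_smul_apply z (n + 1) 1 (by omega)
    obtain ⟨⟨a', rfl⟩, ⟨b', rfl⟩⟩ := dvd_of_apply_eq_zero J e hind a b h1
    have h2 : a' • e + b' • map J e = (l : ℤ_[l]) ^ n • z := by
      have h3 : (l : ℤ_[l]) ^ 1 • (a' • e + b' • map J e - (l : ℤ_[l]) ^ n • z) = 0 := by
        rw [smul_sub, smul_add, smul_smul, smul_smul, smul_smul, pow_one, h, pow_succ',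
          sub_self]
      exact sub_eq_zero.1 (smul_l_injective _ 1 h3)
    obtain ⟨h4, h5⟩ := ih a' b' z h2
    rw [pow_succ']
    exact ⟨mul_dvd_mul_left _ h4, mul_dvd_mul_left _ h5⟩

include hind in
theorem coords_unique (a b : ℤ_[l]) (h : a • e + b • map J e = 0) : a = 0 ∧ b = 0 := by
  constructor
  · exact eq_zero_of_forall_pow_dvd a fun n =>
      (pow_dvd_of_smul_eq J e hind n a b 0 (by rw [h, smul_zero])).1
  · exact eq_zero_of_forall_pow_dvd b fun n =>
      (pow_dvd_of_smul_eq J e hind n a b 0 (by rw [h, smul_zero])).2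

/-- The basis `(e, J e)` of the Tate module. -/
noncomputable def basisOf : Module.Basis (Fin 2) ℤ_[l] (TateModule l M) :=
  Module.Basis.mk (v := ![e, map J e])
    (by
      rw [LinearIndependent.pair_iff]
      exact fun a b h => coords_unique J e hind a b h)
    (by
      rintro x -
      obtain ⟨a, b, rfl⟩ := exists_coords J e hspan x
      refine Submodule.add_mem _ ?_ ?_
      · exact Submodule.smul_mem _ _ (Submodule.subset_span ⟨0, rfl⟩)
      · exact Submodule.smul_mem _ _ (Submodule.subset_span ⟨1, rfl⟩))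

theorem basisOf_zero : basisOf J e hspan hind 0 = e := by
  simp [basisOf]

theorem basisOf_one : basisOf J e hspan hind 1 = map J e := by
  simp [basisOf]

end basis

end TateModule

end Pool.Agent.Lib.P7a3e68
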